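import Pool.Graph.R_seed8.W585.VD.NF
import Mathlib.Algebra.QuadraticAlgebra.NormDeterminant

/-! The number of solutions of a relative norm equation. -/

set_option autoImplicit false

namespace Pool.Agent.H496.R6

open Function
open scoped NumberField

section quad
variable {K : Type} [Field K] [NumberField K] {a : K} [Hab : Fact (∀ r : K, r ^ 2 ≠ a + 0 * r)]

/-- the quadratic extension -/
abbrev Q (a : K) := QuadraticAlgebra K a 0

instance : CharZero (Q a) := charZero_of_injective_algebraMap (algebraMap K (Q a)).injective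

noncomputable instance : Algebra ℚ (Q a) := DivisionRing.toRatAlgebra

instance : IsScalarTower ℚ K (Q a) := IsScalarTower.rat

instance : NumberField (Q a) where
  to_finiteDimensional := Module.Finite.trans (R := ℚ) K (Q a)

omit [NumberField K] in
theorem norm_eq' (x : Q a) : Algebra.norm K x = x.norm := by
  rw [← QuadraticAlgebra.det_toLinearMap_eq_norm]
  rfl

omit Hab in
theorem finrank_eq' : Module.finrank ℚ (Q a) = 2 * Module.finrank ℚ K := by
  rw [← Module.finrank_mul_finrank ℚ K (Q a), QuadraticAlgebra.finrank_eq_two, mul_comm]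

end quad

theorem norm_eq (d : ℕ) {δ : ℝ} (hδ : 0 < δ) : ∃ C : ℝ, 0 < C ∧ ∀ (K : Type) [Field K] [NumberField K],
    Module.finrank ℚ K = d → ∀ (a : 𝓞 K), (∀ x : K, x ^ 2 ≠ a) → ∀ (m : 𝓞 K), m ≠ 0 → ∀ (X : ℝ), 1 ≤ X →
    ∀ S : Finset (𝓞 K × 𝓞 K), (∀ p ∈ S, p.1 ^ 2 - a * p.2 ^ 2 = m) →
    (∀ p ∈ S, ∀ σ : K →+* ℂ, ‖σ p.1‖ + ‖σ p.2‖ * √‖σ a‖ ≤ X) → (S.card : ℝ) ≤ C * X ^ δ := by
  obtain ⟨C, hC, h⟩ := Pool.Agent.W585.VD.t (2 * d) δ hδ
  refine ⟨C, hC, ?_⟩
  intro K _ _ hd a ha m hm X hX S hS hb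
  have : Fact (∀ r : K, r ^ 2 ≠ (a : K) + 0 * r) := ⟨fun r => by simpa using ha r⟩
  set α : Q (a : K) := ⟨0, 1⟩ with hα
  have hα2 : α ^ 2 = algebraMap K (Q (a : K)) a := by
    rw [sq]
    ext <;> simp [hα]
  have hαint : IsIntegral ℤ α := by
    refine IsIntegral.of_pow (n := 2) (by norm_num) ?_
    rw [hα2]
    exact (a.isIntegral_coe).algebraMap
  set αi : 𝓞 (Q (a : K)) := ⟨α, hαint⟩ with hαi
  set ι : 𝓞 K × 𝓞 K → 𝓞 (Q (a : K)) := fun p => algebraMap (𝓞 K) (𝓞 (Q (a : K))) p.1 +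
    algebraMap (𝓞 K) (𝓞 (Q (a : K))) p.2 * αi with hι
  have hval : ∀ p, ((ι p : 𝓞 (Q (a : K))) : Q (a : K)) = ⟨(p.1 : K), (p.2 : K)⟩ := by
    intro p
    have e1 : ((ι p : 𝓞 (Q (a : K))) : Q (a : K)) =
        algebraMap K (Q (a : K)) p.1 + algebraMap K (Q (a : K)) p.2 * α := rfl
    rw [e1]
    ext <;> simp [hα]
  have hinj : Injective ι := by
    intro p q hpq
    have e1 : ((ι p : 𝓞 (Q (a : K))) : Q (a : K)) = ι q := by rw [hpq]
    rw [hval, hval] at e1
    have e2 := congrArg QuadraticAlgebra.re e1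
    have e3 := congrArg QuadraticAlgebra.im e1
    simp only at e2 e3
    exact Prod.ext (NumberField.RingOfIntegers.ext e2) (NumberField.RingOfIntegers.ext e3)
  classical
  have key := h (Q (a : K)) (by rw [finrank_eq', hd]) (Algebra.norm ℤ m) X (S.image ι)
    (Algebra.norm_ne_zero_iff.2 hm) hX ?_
  · rwa [Finset.card_image_of_injective _ hinj] at key
  · intro y hy
    obtain ⟨p, hp, rfl⟩ := Finset.mem_image.1 hy
    refine ⟨?_, ?_⟩
    · have e1 : ((Algebra.norm ℤ (ι p) : ℤ) : ℚ) = ((Algebra.norm ℤ m : ℤ) : ℚ) := by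
        rw [Algebra.coe_norm_int, Algebra.coe_norm_int, ← Algebra.norm_norm (S := K), norm_eq', hval]
        congr 1
        rw [QuadraticAlgebra.norm_def]
        simp only
        have := congrArg (fun t : 𝓞 K => (t : K)) (hS p hp)
        push_cast at this
        rw [← this]
        ring
      exact_mod_cast e1
    · intro σ
      set τ : K →+* ℂ := σ.comp (algebraMap K (Q (a : K))) with hτ
      refine le_trans ?_ (hb p hp τ)
      have e1 : ((ι p : 𝓞 (Q (a : K))) : Q (a : K)) =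
        algebraMap K (Q (a : K)) p.1 + algebraMap K (Q (a : K)) p.2 * α := rfl
      have e2 : ‖σ α‖ = √‖τ a‖ := by
        have e3 : ‖σ α‖ ^ 2 = ‖τ a‖ := by
          rw [← norm_pow, ← map_pow, hα2]
          rfl
        rw [← e3, Real.sqrt_sq (norm_nonneg _)]
      rw [e1, map_add, map_mul]
      refine (norm_add_le _ _).trans ?_
      rw [norm_mul, e2]
      exact le_rfl

end Pool.Agent.H496.R6
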