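import Pool.Agent.H496.A1.Geo

/-! Intersections of hyperbolic balls; entries of matrices. -/

set_option autoImplicit false

namespace Pool.Agent.H496.R6

open MeasureTheory Set Function UpperHalfPlane
open scoped ENNReal NNReal MatrixGroups
open Pool.Agent.T2H31 (rad)

theorem cosh_dist' (z w : ℍ) : Real.cosh (dist z w) =
    ((z.re - w.re) ^ 2 + z.im ^ 2 + w.im ^ 2) / (2 * z.im * w.im) := by
  have hz := z.im_pos
  have hw := w.im_pos
  rw [UpperHalfPlane.cosh_dist, Complex.dist_eq, ← Complex.normSq_eq_norm_sq, Complex.normSq_apply]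
  have e1 : ((z : ℂ) - w).re = z.re - w.re := by simp
  have e2 : ((z : ℂ) - w).im = z.im - w.im := by simp
  rw [e1, e2]
  field_simp
  ring

theorem exists_mid (z z' : ℍ) : ∃ m : ℍ, ∀ p : ℍ,
    Real.cosh (dist p m) * (2 * Real.cosh (dist z z' / 2)) = Real.cosh (dist p z) + Real.cosh (dist p z') := by
  have hz := z.im_pos
  have hz' := z'.im_pos
  set N : ℝ := 2 * Real.cosh (dist z z' / 2) with hN
  have hN0 : 0 < N := by
    have := Real.cosh_pos (dist z z' / 2)
    positivity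
  have hN2 : N ^ 2 = 2 + 2 * Real.cosh (dist z z') := by
    have h1 := Real.cosh_two_mul (dist z z' / 2)
    have h2 := Real.cosh_sq (dist z z' / 2)
    rw [show 2 * (dist z z' / 2) = dist z z' by ring] at h1
    rw [hN, mul_pow, h1]
    linarith
  rw [cosh_dist'] at hN2
  set y := z.im
  set y' := z'.im
  set x := z.re
  set x' := z'.re
  set α : ℝ := (1 / y + 1 / y') / N with hα
  have hα0 : 0 < α := by positivity
  set β : ℝ := (x / y + x' / y') / N with hβ
  have hm0 : 0 < ((⟨β / α, 1 / α⟩ : ℂ)).im := by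
    show 0 < 1 / α
    positivity
  refine ⟨⟨⟨β / α, 1 / α⟩, hm0⟩, fun p => ?_⟩
  have hp := p.im_pos
  rw [cosh_dist', cosh_dist', cosh_dist']
  have e1 : (⟨⟨β / α, 1 / α⟩, hm0⟩ : ℍ).re = β / α := rfl
  have e2 : (⟨⟨β / α, 1 / α⟩, hm0⟩ : ℍ).im = 1 / α := rfl
  rw [e1, e2]
  set u := p.re
  set v := p.im
  have key : β ^ 2 + 1 = α * (((x ^ 2 + y ^ 2) / y + (x' ^ 2 + y' ^ 2) / y') / N) := by
    have h1 : N ^ 2 * (β ^ 2 + 1) = N ^ 2 * (α * (((x ^ 2 + y ^ 2) / y + (x' ^ 2 + y' ^ 2) / y') / N)) := by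
      have e3 : N ^ 2 * (β ^ 2 + 1) = (x / y + x' / y') ^ 2 + N ^ 2 := by
        rw [hβ]
        field_simp
      have e4 : N ^ 2 * (α * (((x ^ 2 + y ^ 2) / y + (x' ^ 2 + y' ^ 2) / y') / N)) =
          (1 / y + 1 / y') * ((x ^ 2 + y ^ 2) / y + (x' ^ 2 + y' ^ 2) / y') := by
        rw [hα]
        field_simp
      rw [e3, e4, hN2]
      field_simp
      ring
    exact mul_left_cancel₀ (by positivity) h1
  have e5 : ((u - β / α) ^ 2 + v ^ 2 + (1 / α) ^ 2) / (2 * v * (1 / α)) =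
      (α * (u ^ 2 + v ^ 2) - 2 * β * u + (β ^ 2 + 1) / α) / (2 * v) := by
    field_simp
    ring
  have e6 : (β ^ 2 + 1) / α = ((x ^ 2 + y ^ 2) / y + (x' ^ 2 + y' ^ 2) / y') / N := by
    rw [key]
    field_simp
  rw [e5, e6, hα, hβ]
  field_simp
  ring

theorem lintegral_inv_32 {y₀ : ℝ} (hy : 0 < y₀) :
    ∫⁻ y in Ici y₀, ENNReal.ofReal (y ^ (-(3 / 2) : ℝ)) = ENNReal.ofReal (2 * y₀ ^ (-(1 / 2) : ℝ)) := by
  have h1 : ∫ y in Ioi y₀, y ^ (-(3 / 2) : ℝ) = 2 * y₀ ^ (-(1 / 2) : ℝ) := by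
    rw [integral_Ioi_rpow_of_lt (by norm_num) hy]
    norm_num
    ring
  have h2 : IntegrableOn (fun y : ℝ => y ^ (-(3 / 2) : ℝ)) (Ioi y₀) := integrableOn_Ioi_rpow_of_lt (by norm_num) hy
  rw [← h1, ofReal_integral_eq_lintegral_ofReal h2]
  · rw [setLIntegral_congr Ioi_ae_eq_Ici.symm]
  · filter_upwards [ae_restrict_mem measurableSet_Ioi] with y hy'
    have : 0 < y := hy.trans hy'
    exact Real.rpow_nonneg this.le _

theorem lintegral_cone (x₀ : ℝ) {κ y₀ : ℝ} (hκ : 0 ≤ κ) (hy : 0 < y₀) :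
    ∫⁻ z in {z : ℂ | |z.re - x₀| ≤ √(κ * z.im) ∧ y₀ ≤ z.im}, ENNReal.ofReal (1 / z.im ^ 2) ≤
      ENNReal.ofReal (4 * √κ * y₀ ^ (-(1 / 2) : ℝ)) := by
  have hmp := Complex.volume_preserving_equiv_real_prod
  set s : Set (ℝ × ℝ) := {q : ℝ × ℝ | |q.1 - x₀| ≤ √(κ * q.2) ∧ y₀ ≤ q.2} with hs
  have hms : MeasurableSet s := by
    have c1 : IsClosed {q : ℝ × ℝ | |q.1 - x₀| ≤ √(κ * q.2)} := isClosed_le (by fun_prop) (by fun_prop)
    have c2 : IsClosed {q : ℝ × ℝ | y₀ ≤ q.2} := isClosed_le (by fun_prop) (by fun_prop)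
    exact (c1.inter c2).measurableSet
  have hs' : {z : ℂ | |z.re - x₀| ≤ √(κ * z.im) ∧ y₀ ≤ z.im} =
      Complex.measurableEquivRealProd ⁻¹' s := by
    ext z
    simp [Complex.measurableEquivRealProd_apply, hs]
  have hm : Measurable fun q : ℝ × ℝ => ENNReal.ofReal (1 / q.2 ^ 2) := by fun_prop
  have := hmp.setLIntegral_comp_preimage hms hm (s := s)
  rw [hs']
  have e : ∫⁻ z in Complex.measurableEquivRealProd ⁻¹' s, ENNReal.ofReal (1 / z.im ^ 2) =
      ∫⁻ q in s, ENNReal.ofReal (1 / q.2 ^ 2) := by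
    rw [← this]
    rfl
  rw [e, ← lintegral_indicator hms, Measure.volume_eq_prod, lintegral_prod_symm _ (hm.indicator hms).aemeasurable]
  have h1 : ∀ y : ℝ, ∫⁻ x : ℝ, s.indicator (fun q : ℝ × ℝ => ENNReal.ofReal (1 / q.2 ^ 2)) (x, y) =
      (Ici y₀).indicator (fun y => ENNReal.ofReal (2 * √κ) * ENNReal.ofReal (y ^ (-(3 / 2) : ℝ))) y := by
    intro y
    by_cases hyy : y ∈ Ici y₀
    · have hy0 : 0 < y := hy.trans_le hyy
      rw [indicator_of_mem hyy]
      have e1 : ∀ x : ℝ, s.indicator (fun q : ℝ × ℝ => ENNReal.ofReal (1 / q.2 ^ 2)) (x, y) =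
          (Icc (x₀ - √(κ * y)) (x₀ + √(κ * y))).indicator (fun _ => ENNReal.ofReal (1 / y ^ 2)) x := by
        intro x
        have hiff : (x, y) ∈ s ↔ x ∈ Icc (x₀ - √(κ * y)) (x₀ + √(κ * y)) := by
          rw [hs, mem_ofPred_eq, mem_Icc, abs_le]
          constructor
          · rintro ⟨⟨h1, h2⟩, -⟩
            constructor <;> linarith
          · rintro ⟨h1, h2⟩
            exact ⟨⟨by linarith, by linarith⟩, hyy⟩
        by_cases h : (x, y) ∈ s
        · rw [indicator_of_mem h, indicator_of_mem (hiff.1 h)]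
        · rw [indicator_of_notMem h, indicator_of_notMem (fun h' => h (hiff.2 h'))]
      simp_rw [e1]
      rw [lintegral_indicator measurableSet_Icc, lintegral_const, Measure.restrict_apply MeasurableSet.univ, univ_inter,
        Real.volume_Icc, ← ENNReal.ofReal_mul (by positivity), ← ENNReal.ofReal_mul (by positivity)]
      congr 1
      have e2 : y ^ (-(3 / 2) : ℝ) = √y / y ^ 2 := by
        rw [Real.sqrt_eq_rpow, ← Real.rpow_natCast, ← Real.rpow_sub hy0]
        norm_num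
      rw [Real.sqrt_mul hκ, e2]
      ring
    · rw [indicator_of_notMem hyy]
      have e1 : ∀ x : ℝ, s.indicator (fun q : ℝ × ℝ => ENNReal.ofReal (1 / q.2 ^ 2)) (x, y) = 0 := fun x =>
        indicator_of_notMem (fun h => hyy h.2) _
      simp_rw [e1, lintegral_zero]
  simp_rw [h1]
  rw [lintegral_indicator measurableSet_Ici, lintegral_const_mul _ (by fun_prop), lintegral_inv_32 hy,
    ← ENNReal.ofReal_mul (by positivity)]
  apply ENNReal.ofReal_le_ofReal
  apply le_of_eq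
  ring

theorem vol_ball_le (m : ℍ) {c : ℝ} (hc : 0 < c) :
    (volume : Measure ℍ) {p : ℍ | Real.cosh (dist p m) ≤ c} ≤ ENNReal.ofReal (8 * c) := by
  have hm := m.im_pos
  have hms : MeasurableSet {p : ℍ | Real.cosh (dist p m) ≤ c} := by
    apply IsClosed.measurableSet
    exact isClosed_le (by fun_prop) (by fun_prop)
  rw [← setLIntegral_one, Pool.Agent.T2H31.lintegral_H measurable_const hms]
  simp only [one_mul]
  refine le_trans (lintegral_mono_set (t := {z : ℂ | |z.re - m.re| ≤ √((2 * m.im * c) * z.im) ∧ m.im / (2 * c) ≤ z.im}) ?_) ?_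
  · rintro _ ⟨p, hp, rfl⟩
    have hp0 := p.im_pos
    rw [mem_ofPred_eq, cosh_dist', div_le_iff₀ (by positivity)] at hp
    constructor
    · show |p.re - m.re| ≤ √((2 * m.im * c) * p.im)
      apply Real.abs_le_sqrt
      nlinarith [sq_nonneg p.im, sq_nonneg m.im]
    · show m.im / (2 * c) ≤ p.im
      rw [div_le_iff₀ (by positivity)]
      have h1 : m.im ^ 2 ≤ c * (2 * p.im * m.im) := by nlinarith [sq_nonneg p.im, sq_nonneg (p.re - m.re)]
      have h2 : m.im * m.im ≤ (p.im * (2 * c)) * m.im := by nlinarith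
      exact le_of_mul_le_mul_right h2 hm
  · refine (lintegral_cone m.re (κ := 2 * m.im * c) (y₀ := m.im / (2 * c)) (by positivity) (by positivity)).trans ?_
    apply ENNReal.ofReal_le_ofReal
    apply le_of_eq
    have e1 : (m.im / (2 * c)) ^ (-(1 / 2) : ℝ) = √(2 * c / m.im) := by
      rw [Real.rpow_neg (by positivity), ← Real.sqrt_eq_rpow, ← Real.sqrt_inv, inv_div]
    rw [e1, mul_assoc, ← Real.sqrt_mul (by positivity)]
    have e2 : 2 * m.im * c * (2 * c / m.im) = (2 * c) ^ 2 := by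
      field_simp
    rw [e2, Real.sqrt_sq (by positivity)]
    ring

theorem vol_inter {U : ℝ} (hU : 1 ≤ U) (z z' : ℍ) :
    (volume : Measure ℍ) (Metric.closedBall z (rad U) ∩ Metric.closedBall z' (rad U)) ≤
      ENNReal.ofReal (16 * U / Real.cosh (dist z z' / 2)) := by
  obtain ⟨m, hm⟩ := exists_mid z z'
  have hC := Real.cosh_pos (dist z z' / 2)
  have h1 : Metric.closedBall z (rad U) ∩ Metric.closedBall z' (rad U) ⊆
      {p : ℍ | Real.cosh (dist p m) ≤ 2 * U / Real.cosh (dist z z' / 2)} := by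
    rintro p ⟨h1, h2⟩
    rw [Metric.mem_closedBall] at h1 h2
    have key : ∀ w : ℍ, dist p w ≤ rad U → Real.cosh (dist p w) ≤ 2 * U := by
      intro w hw
      have h3 : Real.cosh (dist p w) ≤ Real.cosh (rad U) := by
        rw [Real.cosh_le_cosh, abs_of_nonneg dist_nonneg, abs_of_nonneg (rad_nonneg U)]
        exact hw
      rw [cosh_rad hU] at h3
      linarith
    have h4 := key z h1
    have h5 := key z' h2
    have h6 := hm p
    rw [mem_ofPred_eq, le_div_iff₀ hC]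
    linarith
  refine (measure_mono h1).trans ((vol_ball_le m (by positivity)).trans ?_)
  apply ENNReal.ofReal_le_ofReal
  apply le_of_eq
  ring

/-- if the balls meet, the centres are not far apart -/
theorem cosh_half_le {U : ℝ} (hU : 1 ≤ U) {z z' p : ℍ} (h1 : p ∈ Metric.closedBall z (rad U))
    (h2 : p ∈ Metric.closedBall z' (rad U)) : Real.cosh (dist z z' / 2) ≤ 2 * U := by
  rw [Metric.mem_closedBall] at h1 h2
  have h3 : dist z z' ≤ 2 * rad U := by
    have := dist_triangle_left z z' p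
    linarith
  have h4 : Real.cosh (dist z z' / 2) ≤ Real.cosh (rad U) := by
    rw [Real.cosh_le_cosh, abs_of_nonneg (by positivity), abs_of_nonneg (rad_nonneg U)]
    linarith
  rw [cosh_rad hU] at h4
  linarith

theorem sinh_formula (g : SL(2, ℝ)) (z : ℍ) :
    4 * z.im ^ 2 * Real.sinh (dist z (g • z) / 2) ^ 2 =
      (g 1 0 * (z.re ^ 2 - z.im ^ 2) + (g 1 1 - g 0 0) * z.re - g 0 1) ^ 2 +
        (z.im * (2 * g 1 0 * z.re + g 1 1 - g 0 0)) ^ 2 := by
  have hy := z.im_pos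
  have hdet : g 0 0 * g 1 1 - g 0 1 * g 1 0 = 1 := by
    have := g.det_coe
    rwa [Matrix.det_fin_two] at this
  set A := g 0 0
  set B := g 0 1
  set C := g 1 0
  set D := g 1 1
  set w : ℂ := (C : ℂ) * z + (D : ℂ) with hw
  have hw0 : w ≠ 0 := by
    intro h
    have h1 : w.im = C * z.im := by simp [hw]
    have h2 : w.re = C * z.re + D := by simp [hw]
    rw [h] at h1 h2
    simp only [Complex.zero_im, Complex.zero_re] at h1 h2
    have h3 : C = 0 := by
      rcases mul_eq_zero.1 h1.symm with h | h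
      · exact h
      · exact absurd h hy.ne'
    rw [h3] at h2 hdet
    have h4 : D = 0 := by linarith
    rw [h4] at hdet
    simp at hdet
  have hwn : 0 < ‖w‖ := norm_pos_iff.2 hw0
  have h1 : (z : ℂ) - ((g • z : ℍ) : ℂ) = ((C : ℂ) * z ^ 2 + (D - A) * z - B) / w := by
    rw [UpperHalfPlane.specialLinearGroup_apply]
    show (z : ℂ) - ((A : ℂ) * z + (B : ℂ)) / ((C : ℂ) * z + (D : ℂ)) = _
    rw [← hw]
    field_simp
    rw [hw]
    ring
  have h2 : (g • z : ℍ).im = z.im / ‖w‖ ^ 2 := im_smulR g z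
  have h3 : Real.sinh (dist z (g • z) / 2) ^ 2 = ‖(C : ℂ) * z ^ 2 + (D - A) * z - B‖ ^ 2 / (4 * z.im ^ 2) := by
    rw [sinh_half_dist, Complex.dist_eq, h1, div_pow, mul_pow, Real.sq_sqrt, h2, norm_div]
    · field_simp
      norm_num
    · have := (g • z).im_pos
      positivity
  have h4 : ‖(C : ℂ) * z ^ 2 + (D - A) * z - B‖ ^ 2 =
      (C * (z.re ^ 2 - z.im ^ 2) + (D - A) * z.re - B) ^ 2 + (z.im * (2 * C * z.re + D - A)) ^ 2 := by
    have e : (C : ℂ) * z ^ 2 + (D - A) * z - B =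
        ((C * (z.re ^ 2 - z.im ^ 2) + (D - A) * z.re - B : ℝ) : ℂ) +
          ((z.im * (2 * C * z.re + D - A) : ℝ) : ℂ) * Complex.I := by
      have hz : (z : ℂ) = z.re + z.im * Complex.I := (Complex.re_add_im (z : ℂ)).symm
      rw [hz]
      push_cast
      linear_combination ((C : ℂ) * (z.im : ℂ) ^ 2) * Complex.I_sq
    rw [e, ← Complex.normSq_eq_norm_sq, Complex.normSq_add_mul_I]
  rw [h3, h4]
  field_simp

/-- the entries are bounded by the displacement -/
theorem entries_le (g : SL(2, ℝ)) (z : ℍ) {M : ℝ} (hx : |z.re| ≤ M) (hy1 : 1 / M ≤ z.im) (hy2 : z.im ≤ M)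
    (hM : 1 ≤ M) (i j : Fin 2) : |g i j| ≤ 8 * M ^ 3 * Real.cosh (dist z (g • z) / 2) := by
  have hy := z.im_pos
  have hdet : g 0 0 * g 1 1 - g 0 1 * g 1 0 = 1 := by
    have := g.det_coe
    rwa [Matrix.det_fin_two] at this
  have hf := sinh_formula g z
  have htr := abs_tr_le g z
  have hcs := Real.cosh_sq (dist z (g • z) / 2)
  have hc1 := Real.one_le_cosh (dist z (g • z) / 2)
  set c := Real.cosh (dist z (g • z) / 2) with hc
  set sh := Real.sinh (dist z (g • z) / 2) with hsh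
  set A := g 0 0
  set B := g 0 1
  set C := g 1 0
  set D := g 1 1
  set x := z.re
  set y := z.im
  set R := C * (x ^ 2 - y ^ 2) + (D - A) * x - B with hR
  set I := 2 * C * x + D - A with hI
  have hc0 : 0 < c := by linarith
  have hM0 : 0 < M := by linarith
  have hM1 : c * M ≤ M ^ 3 * c := by
    have h1 : M ≤ M ^ 3 := by
      calc M = M * 1 := (mul_one M).symm
        _ ≤ M * M ^ 2 := by
          have : 1 ≤ M ^ 2 := one_le_pow₀ hM
          gcongr
        _ = M ^ 3 := by ring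
    calc c * M ≤ c * M ^ 3 := by gcongr
      _ = _ := mul_comm _ _
  -- the basic bounds
  have hsc : sh ^ 2 ≤ c ^ 2 := by rw [hcs]; linarith
  have b1 : |R| ≤ 2 * y * c := by
    apply abs_le_of_sq_le_sq _ (by positivity)
    have h1 : (2 * y * c) ^ 2 = 4 * y ^ 2 * c ^ 2 := by ring
    have h2 : 4 * y ^ 2 * sh ^ 2 ≤ 4 * y ^ 2 * c ^ 2 := by gcongr
    nlinarith [sq_nonneg (y * I)]
  have b2 : |I| ≤ 2 * c := by
    have h1 : |y * I| ≤ y * (2 * c) := by
      apply abs_le_of_sq_le_sq _ (by positivity)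
      have h1 : (y * (2 * c)) ^ 2 = 4 * y ^ 2 * c ^ 2 := by ring
      have h2 : 4 * y ^ 2 * sh ^ 2 ≤ 4 * y ^ 2 * c ^ 2 := by gcongr
      nlinarith [sq_nonneg R]
    rw [abs_mul, abs_of_pos hy] at h1
    exact le_of_mul_le_mul_left h1 hy
  have b3 : |2 * C * y ^ 2 + R| ≤ 2 * y * c := by
    apply abs_le_of_sq_le_sq _ (by positivity)
    have h1 : (2 * C * y ^ 2 + R) ^ 2 = y ^ 2 * (4 * c ^ 2 - (A + D) ^ 2) := by
      have h2 : (2 * C * y ^ 2 + R) ^ 2 = (R ^ 2 + (y * I) ^ 2) + y ^ 2 * (4 * (A * D - B * C) - (A + D) ^ 2) := by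
        rw [hR, hI]
        ring
      rw [h2, hdet, ← hf, hcs]
      ring
    rw [h1]
    nlinarith [mul_nonneg (sq_nonneg y) (sq_nonneg (A + D))]
  have b4 : |C| ≤ 2 * c * M := by
    have h1 : |2 * C * y ^ 2| ≤ 4 * y * c := by
      have h2 : 2 * C * y ^ 2 = (2 * C * y ^ 2 + R) - R := by ring
      rw [h2]
      refine (abs_sub _ _).trans ?_
      linarith
    have h2 : |2 * C * y ^ 2| = |C| * (2 * y ^ 2) := by
      rw [show 2 * C * y ^ 2 = C * (2 * y ^ 2) by ring, abs_mul, abs_of_nonneg (show 0 ≤ 2 * y ^ 2 by positivity)]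
    rw [h2] at h1
    have h3 : |C| * y ≤ 2 * c := by
      have h4 : (|C| * y) * (2 * y) ≤ (2 * c) * (2 * y) := by nlinarith
      exact le_of_mul_le_mul_right h4 (by positivity)
    have h5 : |C| * (1 / M) ≤ 2 * c := (mul_le_mul_of_nonneg_left hy1 (abs_nonneg C)).trans h3
    rw [mul_one_div, div_le_iff₀ hM0] at h5
    exact h5
  have b5 : |D - A| ≤ 6 * c * M ^ 2 := by
    have h1 : D - A = I - 2 * C * x := by rw [hI]; ring
    rw [h1]
    refine (abs_sub _ _).trans ?_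
    have h2 : |2 * C * x| ≤ 2 * (2 * c * M) * M := by
      rw [abs_mul, abs_mul, abs_two]
      gcongr
    have h3 : 2 * c ≤ 2 * c * M ^ 2 := by
      have : 1 ≤ M ^ 2 := one_le_pow₀ hM
      calc 2 * c = 2 * c * 1 := (mul_one _).symm
        _ ≤ _ := by gcongr
    calc |I| + |2 * C * x| ≤ 2 * c * M ^ 2 + 2 * (2 * c * M) * M := add_le_add (b2.trans h3) h2
      _ = 6 * c * M ^ 2 := by ring
  have hB : |B| ≤ 8 * M ^ 3 * c := by
    have h1 : B = -(C * (x ^ 2 + y ^ 2)) + I * x - R := by rw [hI, hR]; ring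
    rw [h1]
    have h2 : |-(C * (x ^ 2 + y ^ 2))| ≤ 2 * c * M * (2 * M ^ 2) := by
      rw [abs_neg, abs_mul]
      refine mul_le_mul b4 ?_ (abs_nonneg _) (by positivity)
      rw [abs_of_nonneg (by positivity)]
      have h3 : x ^ 2 ≤ M ^ 2 := by
        rw [← sq_abs]
        gcongr
      have h4 : y ^ 2 ≤ M ^ 2 := by gcongr
      linarith
    have h3 : |I * x| ≤ 2 * c * M := by
      rw [abs_mul]
      gcongr
    have h4 : |R| ≤ 2 * M * c := b1.trans (by gcongr)
    have h5 : c * M ≤ M ^ 3 * c := hM1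
    calc |-(C * (x ^ 2 + y ^ 2)) + I * x - R| ≤ |-(C * (x ^ 2 + y ^ 2)) + I * x| + |R| := abs_sub _ _
      _ ≤ |-(C * (x ^ 2 + y ^ 2))| + |I * x| + |R| := by
          have := abs_add_le (-(C * (x ^ 2 + y ^ 2))) (I * x)
          linarith
      _ ≤ 2 * c * M * (2 * M ^ 2) + 2 * c * M + 2 * M * c := add_le_add (add_le_add h2 h3) h4
      _ = 4 * (M ^ 3 * c) + 4 * (c * M) := by ring
      _ ≤ 8 * M ^ 3 * c := by linarith
  have h23 : c * M ^ 2 ≤ M ^ 3 * c := by
    have : M ^ 2 ≤ M ^ 3 := pow_le_pow_right₀ hM (by norm_num)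
    calc c * M ^ 2 ≤ c * M ^ 3 := by gcongr
      _ = _ := mul_comm _ _
  have h13 : c ≤ M ^ 3 * c := by
    have : 1 ≤ M ^ 3 := one_le_pow₀ hM
    calc c = 1 * c := (one_mul _).symm
      _ ≤ _ := by gcongr
  have t1 := abs_le.1 htr
  have t2 := abs_le.1 b5
  have hAA : |A| ≤ 8 * M ^ 3 * c := by
    rw [abs_le]
    constructor <;> linarith [t1.1, t1.2, t2.1, t2.2]
  have hDD : |D| ≤ 8 * M ^ 3 * c := by
    rw [abs_le]
    constructor <;> linarith [t1.1, t1.2, t2.1, t2.2]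
  have hCC : |C| ≤ 8 * M ^ 3 * c := b4.trans (by linarith)
  fin_cases i <;> fin_cases j
  · exact hAA
  · exact hB
  · exact hCC
  · exact hDD

end Pool.Agent.H496.R6
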