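import Pool.Agent.H496.R6.Mink
import Pool.Agent.H496.R6.Mid

/-! Reduction theory for the unit groups of division quaternion algebras: the analytic part. -/

set_option autoImplicit false

namespace Pool.Agent.H496.R6

open MeasureTheory Matrix Function UpperHalfPlane
open scoped ENNReal NumberField MatrixGroups

/-- the matrix taking `i` to `z` -/
noncomputable def GG (z : ℍ) : Matrix (Fin 2) (Fin 2) ℝ := !![√z.im, z.re / √z.im; 0, 1 / √z.im]

theorem box_of_entries (g : SL(2, ℝ)) (z : ℍ) {R : ℝ} (hR : 1 ≤ R)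
    (h : ∀ i j, |((g : Matrix (Fin 2) (Fin 2) ℝ) * GG z) i j| ≤ R) :
    |(g • z).re| ≤ 2 * R ^ 2 ∧ 1 / (2 * R ^ 2) ≤ (g • z).im ∧ (g • z).im ≤ 2 * R ^ 2 := by
  have hy := z.im_pos
  have hdet : g 0 0 * g 1 1 - g 0 1 * g 1 0 = 1 := by
    have := g.det_coe
    rwa [Matrix.det_fin_two] at this
  have h00 := h 0 0
  have h01 := h 0 1
  have h10 := h 1 0
  have h11 := h 1 1
  simp only [GG, Matrix.mul_apply, Fin.sum_univ_two, Matrix.of_apply, Matrix.cons_val', Matrix.cons_val_zero,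
    Matrix.cons_val_one, Matrix.cons_val_fin_one, mul_zero, add_zero] at h00 h01 h10 h11
  set A := g 0 0
  set B := g 0 1
  set C := g 1 0
  set D := g 1 1
  set x := z.re
  set y := z.im
  set q := √y with hq
  have hq0 : 0 < q := Real.sqrt_pos.2 hy
  have hqy : q ^ 2 = y := Real.sq_sqrt hy.le
  have hR0 : 0 < R := by linarith
  -- squares
  have s00 : (A * q) ^ 2 ≤ R ^ 2 := by rw [← sq_abs]; gcongr
  have s10 : (C * q) ^ 2 ≤ R ^ 2 := by rw [← sq_abs]; gcongr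
  have s01 : (A * (x / q) + B * (1 / q)) ^ 2 ≤ R ^ 2 := by rw [← sq_abs]; gcongr
  have s11 : (C * (x / q) + D * (1 / q)) ^ 2 ≤ R ^ 2 := by rw [← sq_abs]; gcongr
  have e01 : (A * (x / q) + B * (1 / q)) ^ 2 = (A * x + B) ^ 2 / y := by
    rw [← hqy]
    field_simp
  have e11 : (C * (x / q) + D * (1 / q)) ^ 2 = (C * x + D) ^ 2 / y := by
    rw [← hqy]
    field_simp
  rw [e01, div_le_iff₀ hy] at s01
  rw [e11, div_le_iff₀ hy] at s11
  rw [mul_pow, hqy] at s00 s10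
  -- the formulas
  set w : ℂ := (C : ℂ) * z + (D : ℂ) with hw
  have hwsq : ‖w‖ ^ 2 = (C * x + D) ^ 2 + C ^ 2 * y ^ 2 := by
    rw [← Complex.normSq_eq_norm_sq, Complex.normSq_apply]
    have h1 : w.im = C * y := by simp [hw, y]
    have h2 : w.re = C * x + D := by simp [hw, x]
    rw [h1, h2]
    ring
  set Dn : ℝ := (C * x + D) ^ 2 + C ^ 2 * y ^ 2 with hDn
  set Nn : ℝ := (A * x + B) ^ 2 + A ^ 2 * y ^ 2 with hNn
  set Rn : ℝ := (A * x + B) * (C * x + D) + A * C * y ^ 2 with hRn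
  have hlag : Nn * Dn = Rn ^ 2 + y ^ 2 := by
    have : Nn * Dn = Rn ^ 2 + y ^ 2 * (A * D - B * C) ^ 2 := by
      rw [hNn, hDn, hRn]
      ring
    rw [this, hdet]
    ring
  have hDn0 : 0 ≤ Dn := by positivity
  have hNn0 : 0 ≤ Nn := by positivity
  have hprod : 0 < Nn * Dn := by
    rw [hlag]
    positivity
  have hDp : 0 < Dn := by
    rcases hDn0.eq_or_lt with h | h
    · rw [← h, mul_zero] at hprod
      exact absurd hprod (lt_irrefl _)
    · exact h
  have hNp : 0 < Nn := by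
    rcases hNn0.eq_or_lt with h | h
    · rw [← h, zero_mul] at hprod
      exact absurd hprod (lt_irrefl _)
    · exact h
  have hD2 : Dn ≤ 2 * R ^ 2 * y := by
    have : C ^ 2 * y ^ 2 ≤ R ^ 2 * y := by
      calc C ^ 2 * y ^ 2 = (C ^ 2 * y) * y := by ring
        _ ≤ R ^ 2 * y := by gcongr
    rw [hDn]
    linarith
  have hN2 : Nn ≤ 2 * R ^ 2 * y := by
    have : A ^ 2 * y ^ 2 ≤ R ^ 2 * y := by
      calc A ^ 2 * y ^ 2 = (A ^ 2 * y) * y := by ring
        _ ≤ R ^ 2 * y := by gcongr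
    rw [hNn]
    linarith
  have him : (g • z : ℍ).im = y / Dn := by
    rw [im_smulR g z]
    show y / ‖w‖ ^ 2 = _
    rw [hwsq]
  have hre : (g • z : ℍ).re = Rn / Dn := by
    have h1 : (((g • z : ℍ) : ℂ)).re = Rn / Dn := by
      rw [UpperHalfPlane.specialLinearGroup_apply]
      show (((A : ℂ) * z + (B : ℂ)) / ((C : ℂ) * z + (D : ℂ))).re = _
      rw [← hw, Complex.div_re, Complex.normSq_eq_norm_sq, hwsq]
      have h1 : w.im = C * y := by simp [hw, y]
      have h2 : w.re = C * x + D := by simp [hw, x]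
      have h3 : ((A : ℂ) * z + (B : ℂ)).re = A * x + B := by simp [x]
      have h4 : ((A : ℂ) * z + (B : ℂ)).im = A * y := by simp [y]
      rw [h1, h2, h3, h4, hRn]
      field_simp
    exact h1
  have hR2 : 0 < 2 * R ^ 2 := by positivity
  have hD3 : y / (2 * R ^ 2) ≤ Dn := by
    rw [div_le_iff₀ hR2]
    have h1 : y ^ 2 ≤ Nn * Dn := by
      rw [hlag]
      have := sq_nonneg Rn
      linarith
    have h2 : Nn * Dn ≤ 2 * R ^ 2 * y * Dn := by gcongr
    have h3 : y * y ≤ (Dn * (2 * R ^ 2)) * y := by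
      calc y * y = y ^ 2 := by ring
        _ ≤ 2 * R ^ 2 * y * Dn := h1.trans h2
        _ = _ := by ring
    exact le_of_mul_le_mul_right h3 hy
  refine ⟨?_, ?_, ?_⟩
  · rw [hre]
    apply abs_le_of_sq_le_sq _ hR2.le
    rw [div_pow, div_le_iff₀ (by positivity)]
    have h1 : Rn ^ 2 ≤ Nn * Dn := by
      rw [hlag]
      have := sq_nonneg y
      linarith
    have h2 : Nn ≤ (2 * R ^ 2) ^ 2 * Dn := by
      rw [div_le_iff₀ hR2] at hD3
      calc Nn ≤ 2 * R ^ 2 * y := hN2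
        _ ≤ 2 * R ^ 2 * (Dn * (2 * R ^ 2)) := by gcongr
        _ = _ := by ring
    calc Rn ^ 2 ≤ Nn * Dn := h1
      _ ≤ ((2 * R ^ 2) ^ 2 * Dn) * Dn := by gcongr
      _ = _ := by ring
  · rw [him, div_le_div_iff₀ hR2 hDp]
    linarith
  · rw [him, div_le_iff₀ hDp]
    rw [div_le_iff₀ hR2] at hD3
    linarith

/-- the four forms at a split place -/
noncomputable def TT (α β : ℝ) (z : ℍ) : Matrix (Fin 4) (Fin 4) ℝ :=
  !![√z.im, √z.im * α, 0, 0;
     z.re / √z.im, z.re / √z.im * α, β / √z.im, β / √z.im * α;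
     0, 0, √z.im, -(√z.im * α);
     1 / √z.im, -(1 / √z.im * α), z.re / √z.im, -(z.re / √z.im * α)]

theorem det_TT (α β : ℝ) (z : ℍ) : (TT α β z).det = 4 * α ^ 2 * β := by
  have hq0 : √z.im ≠ 0 := (Real.sqrt_pos.2 z.im_pos).ne'
  simp only [TT, Matrix.det_succ_row_zero, Fin.sum_univ_succ, Matrix.det_fin_three]
  simp [Fin.succAbove]
  generalize √z.im = q at hq0
  field_simp
  ring

variable {K : Type*} [Field K] [NumberField K] {W V : Type*} [Fintype W] [DecidableEq W] [Fintype V]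

theorem finite_box (ψ : W → K →+* ℝ) (φ : V → K →+* ℝ) (hinj : Injective (Sum.elim ψ φ))
    (hcard : Fintype.card W + Fintype.card V = Module.finrank ℚ K) (w₀ : W) {B : ℝ} (hB : 0 < B) :
    {x : 𝓞 K | (∀ w, |ψ w (x : K)| ≤ B) ∧ ∀ v, |φ v (x : K)| ≤ B}.Finite := by
  by_contra hinf
  have hinf' : {x : 𝓞 K | (∀ w, |ψ w (x : K)| ≤ B) ∧ ∀ v, |φ v (x : K)| ≤ B}.Infinite := hinf
  set Bd : ℝ := 2 + (∏ _w : W, (2 * B)) * (∏ _v : V, (2 * B)) / Ideal.absNorm (⊤ : Ideal (𝓞 K)) with hBd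
  obtain ⟨S, hS, hcS⟩ := hinf'.exists_subset_card_eq (⌊Bd⌋₊ + 1)
  have h := box_count ψ φ hinj hcard (𝔟 := ⊤) top_ne_bot w₀ S (fun _ _ _ _ => Submodule.mem_top)
    (A := fun _ => B) (B := fun _ => B) (fun _ => hB) (fun _ => hB.le) (fun x hx w => (hS hx).1 w) (c := fun _ => 0)
    (fun x hx v => by rw [sub_zero]; exact (hS hx).2 v)
  rw [hcS] at h
  push_cast at h
  have := Nat.lt_floor_add_one Bd
  linarith

end Pool.Agent.H496.R6
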