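import Pool.Agent.H496.A1.Norm

/-! Counting elements of an ideal in a box. -/

set_option autoImplicit false

namespace Pool.Agent.H496.R6

open Function
open scoped NumberField

variable {K : Type*} [Field K] [NumberField K] {W V : Type*} [Fintype W] [DecidableEq W] [Fintype V]

theorem box_count (ψ : W → K →+* ℝ) (φ : V → K →+* ℝ) (hinj : Injective (Sum.elim ψ φ))
    (hcard : Fintype.card W + Fintype.card V = Module.finrank ℚ K) {𝔟 : Ideal (𝓞 K)} (h𝔟 : 𝔟 ≠ ⊥) (w₀ : W)
    (S : Finset (𝓞 K)) (hd : ∀ x ∈ S, ∀ y ∈ S, x - y ∈ 𝔟) {A : W → ℝ} {B : V → ℝ} (hA0 : ∀ w, 0 < A w)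
    (hB0 : ∀ v, 0 ≤ B v)
    (hA : ∀ x ∈ S, ∀ w, |ψ w (x : K)| ≤ A w) {c : V → ℝ} (hB : ∀ x ∈ S, ∀ v, |φ v (x : K) - c v| ≤ B v) :
    (S.card : ℝ) ≤ 2 + (∏ w, (2 * A w)) * (∏ v, (2 * B v)) / Ideal.absNorm 𝔟 := by
  classical
  have hN : (0 : ℝ) < Ideal.absNorm 𝔟 := by
    have : Ideal.absNorm 𝔟 ≠ 0 := by rwa [Ne, Ideal.absNorm_eq_zero_iff]
    positivity
  set P : ℝ := (∏ w, (2 * A w)) * (∏ v, (2 * B v)) with hP
  have hP0 : 0 ≤ P := mul_nonneg (Finset.prod_nonneg fun w _ => by have := hA0 w; positivity)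
    (Finset.prod_nonneg fun v _ => by have := hB0 v; positivity)
  set m : ℕ := ⌊P / Ideal.absNorm 𝔟⌋₊ + 1 with hm
  have hm0 : (0 : ℝ) < m := by rw [hm]; positivity
  have hm1 : P < m * Ideal.absNorm 𝔟 := by
    have := Nat.lt_floor_add_one (P / Ideal.absNorm 𝔟)
    rw [div_lt_iff₀ hN] at this
    rw [hm]
    push_cast
    exact this
  have hA00 := hA0 w₀
  set h : ℝ := 2 * A w₀ / m with hh
  have hh0 : 0 < h := by positivity
  -- the cells
  set k : 𝓞 K → ℕ := fun x => ⌊(ψ w₀ (x : K) + A w₀) / h⌋₊ with hk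
  have hpos : ∀ x ∈ S, 0 ≤ (ψ w₀ (x : K) + A w₀) / h := by
    intro x hx
    have := (abs_le.1 (hA x hx w₀)).1
    apply div_nonneg _ hh0.le
    linarith
  have hkm : ∀ x ∈ S, k x ∈ Finset.range (m + 1) := by
    intro x hx
    rw [Finset.mem_range, Nat.lt_succ_iff]
    have h1 : (ψ w₀ (x : K) + A w₀) / h ≤ m := by
      rw [div_le_iff₀ hh0, hh]
      have := (abs_le.1 (hA x hx w₀)).2
      have e : (m : ℝ) * (2 * A w₀ / m) = 2 * A w₀ := by field_simp
      rw [e]
      linarith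
    calc k x ≤ ⌊(m : ℝ)⌋₊ := Nat.floor_le_floor h1
      _ = m := Nat.floor_natCast m
  have hinjk : Set.InjOn k S := by
    intro x hx y hy hxy
    by_contra hne
    have hsub : x - y ≠ 0 := sub_ne_zero.2 hne
    have h1 := absNorm_le ψ φ hinj hcard (hd x hx y hy) hsub
    have h2 : ∀ w, |ψ w ((x - y : 𝓞 K) : K)| ≤ if w = w₀ then h else 2 * A w := by
      intro w
      have e1 : ψ w ((x - y : 𝓞 K) : K) = ψ w x - ψ w y := by push_cast; rw [map_sub]
      rw [e1]
      split_ifs with hw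
      · rw [hw]
        have h3 := Nat.floor_le (hpos x hx)
        have h4 := Nat.lt_floor_add_one ((ψ w₀ (x : K) + A w₀) / h)
        have h5 := Nat.floor_le (hpos y hy)
        have h6 := Nat.lt_floor_add_one ((ψ w₀ (y : K) + A w₀) / h)
        have h7 : ⌊(ψ w₀ (x : K) + A w₀) / h⌋₊ = ⌊(ψ w₀ (y : K) + A w₀) / h⌋₊ := hxy
        rw [h7] at h3 h4
        have h8 : |(ψ w₀ (x : K) + A w₀) / h - (ψ w₀ (y : K) + A w₀) / h| ≤ 1 := by
          rw [abs_le]
          constructor <;> linarith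
        rw [← sub_div, abs_div, abs_of_pos hh0, div_le_one hh0] at h8
        have e2 : ψ w₀ (x : K) + A w₀ - (ψ w₀ (y : K) + A w₀) = ψ w₀ x - ψ w₀ y := by ring
        rwa [e2] at h8
      · have h3 := abs_le.1 (hA x hx w)
        have h4 := abs_le.1 (hA y hy w)
        rw [abs_le]
        constructor <;> linarith
    have h3 : ∀ v, |φ v ((x - y : 𝓞 K) : K)| ≤ 2 * B v := by
      intro v
      have e1 : φ v ((x - y : 𝓞 K) : K) = φ v x - φ v y := by push_cast; rw [map_sub]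
      rw [e1]
      have h3 := abs_le.1 (hB x hx v)
      have h4 := abs_le.1 (hB y hy v)
      rw [abs_le]
      constructor <;> linarith
    have h4 : (∏ w, |ψ w ((x - y : 𝓞 K) : K)|) ≤ ∏ w, (if w = w₀ then h else 2 * A w) :=
      Finset.prod_le_prod (fun w _ => abs_nonneg _) fun w _ => h2 w
    have h5 : (∏ v, |φ v ((x - y : 𝓞 K) : K)|) ≤ ∏ v, (2 * B v) :=
      Finset.prod_le_prod (fun v _ => abs_nonneg _) fun v _ => h3 v
    have h6 : (∏ w, (if w = w₀ then h else 2 * A w)) = (∏ w, (2 * A w)) / m := by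
      rw [← Finset.mul_prod_erase Finset.univ _ (Finset.mem_univ w₀),
        ← Finset.mul_prod_erase Finset.univ (fun w => 2 * A w) (Finset.mem_univ w₀), if_pos rfl]
      have : ∏ w ∈ Finset.univ.erase w₀, (if w = w₀ then h else 2 * A w) = ∏ w ∈ Finset.univ.erase w₀, (2 * A w) :=
        Finset.prod_congr rfl fun w hw => if_neg (Finset.ne_of_mem_erase hw)
      rw [this, hh]
      ring
    have h7 : (Ideal.absNorm 𝔟 : ℝ) ≤ P / m := by
      refine h1.trans ?_
      calc _ ≤ (∏ w, (2 * A w)) / m * ∏ v, (2 * B v) := by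
            rw [← h6]
            refine mul_le_mul h4 h5 (Finset.prod_nonneg fun v _ => abs_nonneg _) ?_
            refine Finset.prod_nonneg fun w _ => ?_
            have := hA0 w
            split_ifs <;> positivity
        _ = P / m := by rw [hP]; ring
    rw [le_div_iff₀ hm0] at h7
    linarith
  have h1 := Finset.card_le_card_of_injOn k hkm hinjk
  rw [Finset.card_range] at h1
  have h2 : (S.card : ℝ) ≤ m + 1 := by exact_mod_cast h1
  have h3 : (m : ℝ) ≤ P / Ideal.absNorm 𝔟 + 1 := by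
    rw [hm]
    push_cast
    have := Nat.floor_le (show 0 ≤ P / Ideal.absNorm 𝔟 by positivity)
    linarith
  linarith

end Pool.Agent.H496.R6
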