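import Pool.Agent.H496.R6.Sum

/-! The main estimate. -/

set_option autoImplicit false

namespace Pool.Agent.H496.R6

open MeasureTheory Set Function
open UpperHalfPlane hiding I
open scoped ENNReal NNReal ComplexConjugate MatrixGroups
open Pool.Agent.H496 Pool.Agent.H496.R4
open Pool.Agent.T2H31 (rad EB)

section split
variable {W : Type*} [Fintype W] [DecidableEq W] (w₀ : W)

/-- the other places -/
abbrev Oth (w₀ : W) := {w : W // ¬ w = w₀}

/-- a point with given coordinate at `w₀` and given other coordinates -/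
def mk (u : ℍ) (z' : Oth w₀ → ℍ) : W → ℍ := fun w => if h : w = w₀ then u else z' ⟨w, h⟩

omit [Fintype W] in
theorem mk_self (u : ℍ) (z' : Oth w₀ → ℍ) : mk w₀ u z' w₀ = u := by simp [mk]

omit [Fintype W] in
theorem mk_oth (u : ℍ) (z' : Oth w₀ → ℍ) (w : Oth w₀) : mk w₀ u z' w = z' w := by
  rw [mk, dif_neg w.2]

omit [Fintype W] in
theorem mk_eta (z : W → ℍ) : mk w₀ (z w₀) (fun w : Oth w₀ => z w) = z := by
  funext w
  by_cases h : w = w₀
  · rw [mk, dif_pos h, h]
  · rw [mk, dif_neg h]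

omit [Fintype W] in
theorem update_mk_self (u u' : ℍ) (z' : Oth w₀ → ℍ) : update (mk w₀ u z') w₀ u' = mk w₀ u' z' := by
  funext w
  by_cases h : w = w₀
  · subst h
    rw [update_self, mk_self]
  · rw [update_of_ne h, mk, mk, dif_neg h, dif_neg h]

omit [Fintype W] in
theorem update_mk_oth (u u' : ℍ) (z' : Oth w₀ → ℍ) (w : Oth w₀) :
    update (mk w₀ u z') w u' = mk w₀ u (update z' w u') := by
  funext x
  by_cases hx : x = w₀
  · subst hx
    rw [update_of_ne (fun h => w.2 h.symm), mk_self, mk_self]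
  · by_cases hw : x = w
    · subst hw
      rw [update_self, mk_oth, update_self]
    · rw [update_of_ne hw, mk, dif_neg hx, mk, dif_neg hx, update_of_ne]
      intro h
      exact hw (congrArg Subtype.val h)

/-- the measurable equivalence -/
noncomputable def eqv : (W → ℍ) ≃ᵐ ℍ × (Oth w₀ → ℍ) :=
  (MeasurableEquiv.piEquivPiSubtypeProd (fun _ : W => ℍ) (fun w => w = w₀)).trans
    ((MeasurableEquiv.funUnique {w : W // w = w₀} ℍ).prodCongr (MeasurableEquiv.refl _))

omit [Fintype W] in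
theorem eqv_apply (z : W → ℍ) : eqv w₀ z = (z w₀, fun w : Oth w₀ => z w) := rfl

omit [Fintype W] in
theorem eqv_symm (p : ℍ × (Oth w₀ → ℍ)) : (eqv w₀).symm p = mk w₀ p.1 p.2 := by
  rw [MeasurableEquiv.symm_apply_eq, eqv_apply]
  refine Prod.ext ?_ ?_
  · exact (mk_self w₀ p.1 p.2).symm
  · funext w
    exact (mk_oth w₀ p.1 p.2 w).symm

theorem mp_split (I1 : Fintype {w : W // w = w₀}) (I2 : Fintype {w : W // ¬ w = w₀}) :
    MeasurePreserving (MeasurableEquiv.piEquivPiSubtypeProd (fun _ : W => ℍ) (fun w => w = w₀))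
      (volume : Measure (W → ℍ))
      ((volume : Measure ({w : W // w = w₀} → ℍ)).prod (volume : Measure ({w : W // ¬ w = w₀} → ℍ))) := by
  obtain rfl : I1 = Subtype.fintype _ := Subsingleton.elim _ _
  obtain rfl : I2 = Subtype.fintype _ := Subsingleton.elim _ _
  exact volume_preserving_piEquivPiSubtypeProd (fun _ : W => ℍ) (fun w => w = w₀)

omit [Fintype W] [DecidableEq W] in
theorem mp_uniq (I1 : Fintype {w : W // w = w₀}) :
    MeasurePreserving (MeasurableEquiv.funUnique {w : W // w = w₀} ℍ)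
      (volume : Measure ({w : W // w = w₀} → ℍ)) (volume : Measure ℍ) := by
  obtain rfl : I1 = Unique.fintype := Subsingleton.elim _ _
  exact volume_preserving_funUnique {w : W // w = w₀} ℍ

theorem mp_eqv : MeasurePreserving (eqv w₀) (volume : Measure (W → ℍ)) ((volume : Measure ℍ).prod volume) := by
  have h1 := mp_split w₀ inferInstance inferInstance
  have h2 : MeasurePreserving (Prod.map (MeasurableEquiv.funUnique {w : W // w = w₀} ℍ) (id : (Oth w₀ → ℍ) → _))
      ((volume : Measure ({w : W // w = w₀} → ℍ)).prod (volume : Measure (Oth w₀ → ℍ)))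
      ((volume : Measure ℍ).prod volume) :=
    (mp_uniq w₀ inferInstance).prod (MeasurePreserving.id (volume : Measure (Oth w₀ → ℍ)))
  exact h2.comp h1

theorem mp_symm : MeasurePreserving (fun p : ℍ × (Oth w₀ → ℍ) => mk w₀ p.1 p.2)
    ((volume : Measure ℍ).prod volume) (volume : Measure (W → ℍ)) := by
  have h := (mp_eqv w₀).symm (eqv w₀)
  have e : ⇑(eqv w₀).symm = fun p : ℍ × (Oth w₀ → ℍ) => mk w₀ p.1 p.2 := funext fun p => eqv_symm w₀ p
  rwa [e] at h

omit [Fintype W] in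
theorem continuous_mk : Continuous fun p : ℍ × (Oth w₀ → ℍ) => mk w₀ p.1 p.2 := by
  refine continuous_pi fun w => ?_
  by_cases h : w = w₀
  · simp only [mk, dif_pos h]
    exact continuous_fst
  · simp only [mk, dif_neg h]
    exact (continuous_apply _).comp continuous_snd

end split

section core
variable {W V J G : Type*} [Fintype W] [DecidableEq W] [Fintype V] [DecidableEq V] [Fintype J] [DecidableEq J]
  [Group G] [Countable G] (r : W → G →* SL(2, ℝ)) (σ : V → G →* Quaternion ℝ) (hσ : ∀ v γ, ‖σ v γ‖ = 1)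
  {w₀ : W} {U Z q : ℝ} {L : W → ℝ}

theorem cosh_one_le : Real.cosh 1 ≤ 2 := by
  rw [Real.cosh_eq]
  have e1 := Real.exp_one_lt_d9
  have e2 : Real.exp (-1) ≤ 1 := Real.exp_le_one_iff.2 (by norm_num)
  linarith

/-- the product of the small balls at the other places -/
def EE (w₀ : W) (L : W → ℝ) (z : W → ℍ) : Set (Oth w₀ → ℍ) :=
  univ.pi fun w : Oth w₀ => EB (z w) (1 / (2 * Real.sqrt (L w)))

omit [DecidableEq W] [DecidableEq V] [Countable G] in
theorem kernel_tsum (hU : 1 ≤ U) (hZ : 0 ≤ Z) (hq : 0 < q) (hq1 : q ≤ 1) (hL : ∀ w, 1 ≤ L w) (z : W → ℍ)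
    (hcount : CountHyp r σ w₀ z U Z q) (n : V → ℕ) :
    ∑' δ : G, ENNReal.ofReal |TH n (sS σ hσ δ)| *
      ((volume : Measure ℍ) (BD (z w₀) (rr U) ∩ (fun u => r w₀ δ • u) ⁻¹' BD (z w₀) (rr U)) *
      {δ : G | ∃ z' ∈ EE w₀ L z, (fun w : Oth w₀ => r w δ • z' w) ∈ EE w₀ L z}.indicator 1 δ) ≤
      ENNReal.ofReal (KB V U Z q n) := by
  classical
  set P : G → Prop := fun δ => cd r z w₀ δ ≤ 2 * U ∧ ∀ w ≠ w₀, cd r z w δ ≤ 2 with hP
  have hterm : ∀ δ : G, ENNReal.ofReal |TH n (sS σ hσ δ)| *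
      ((volume : Measure ℍ) (BD (z w₀) (rr U) ∩ (fun u => r w₀ δ • u) ⁻¹' BD (z w₀) (rr U)) *
      {δ : G | ∃ z' ∈ EE w₀ L z, (fun w : Oth w₀ => r w δ • z' w) ∈ EE w₀ L z}.indicator 1 δ) ≤
      if P δ then ENNReal.ofReal (|TH n (sS σ hσ δ)| * (16 * U / cd r z w₀ δ)) else 0 := by
    intro δ
    by_cases h1 : ∃ z' ∈ EE w₀ L z, (fun w : Oth w₀ => r w δ • z' w) ∈ EE w₀ L z
    · rw [indicator_of_mem (show δ ∈ {δ : G | ∃ z' ∈ EE w₀ L z, (fun w : Oth w₀ => r w δ • z' w) ∈ EE w₀ L z} from h1),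
        Pi.one_apply, mul_one]
      obtain ⟨z', hz1, hz2⟩ := h1
      have hother : ∀ w ≠ w₀, cd r z w δ ≤ 2 := by
        intro w hw
        have hs : 1 ≤ Real.sqrt (L w) := Real.one_le_sqrt.2 (hL w)
        have hρ0 : 0 ≤ 1 / (2 * Real.sqrt (L w)) := by positivity
        have hρ : 1 / (2 * Real.sqrt (L w)) ≤ 1 / 2 := by
          gcongr
          linarith
        have a1 := Pool.Agent.T2H31.dist_of_EB hρ0 hρ (hz1 ⟨w, hw⟩ (mem_univ _))
        have a2 := Pool.Agent.T2H31.dist_of_EB hρ0 hρ (hz2 ⟨w, hw⟩ (mem_univ _))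
        simp only at a1 a2
        have a3 : dist (z w) (r w δ • z w) ≤ 2 := by
          have b1 := dist_triangle (z w) (r w δ • z' ⟨w, hw⟩) (r w δ • z w)
          rw [dist_smul] at b1
          rw [dist_comm (z w) (r w δ • z' ⟨w, hw⟩)] at b1
          linarith
        rw [cd]
        refine le_trans ?_ cosh_one_le
        rw [Real.cosh_le_cosh, abs_of_nonneg (by positivity), abs_of_nonneg (by norm_num)]
        linarith
      have hd : dist (z w₀) ((r w₀ δ)⁻¹ • z w₀) = dist (z w₀) (r w₀ δ • z w₀) := by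
        rw [← dist_smul (r w₀ δ) (z w₀) ((r w₀ δ)⁻¹ • z w₀), smul_inv_smul, dist_comm]
      have hsub : BD (z w₀) (rr U) ∩ (fun u => r w₀ δ • u) ⁻¹' BD (z w₀) (rr U) ⊆
          Metric.closedBall (z w₀) (rad U) ∩ Metric.closedBall ((r w₀ δ)⁻¹ • z w₀) (rad U) := by
        rintro u ⟨u1, u2⟩
        refine ⟨BD_sub hU _ u1, ?_⟩
        have u3 := BD_sub hU _ u2
        rw [Metric.mem_closedBall] at u3 ⊢
        rw [← dist_smul (r w₀ δ) u, smul_inv_smul]
        exact u3
      by_cases h2 : cd r z w₀ δ ≤ 2 * U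
      · rw [if_pos (show P δ from ⟨h2, hother⟩), ENNReal.ofReal_mul (abs_nonneg _)]
        refine mul_le_mul' le_rfl ((measure_mono hsub).trans ?_)
        have h3 := vol_inter hU (z w₀) ((r w₀ δ)⁻¹ • z w₀)
        rw [hd] at h3
        exact h3
      · have h3 : BD (z w₀) (rr U) ∩ (fun u => r w₀ δ • u) ⁻¹' BD (z w₀) (rr U) = ∅ := by
          rw [Set.eq_empty_iff_forall_notMem]
          intro u hu
          obtain ⟨u1, u2⟩ := hsub hu
          have h4 := cosh_half_le hU u1 u2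
          rw [hd] at h4
          exact h2 h4
        rw [h3, measure_empty, mul_zero]
        exact bot_le
    · rw [indicator_of_notMem (show δ ∉ {δ : G | ∃ z' ∈ EE w₀ L z, (fun w : Oth w₀ => r w δ • z' w) ∈ EE w₀ L z} from h1),
        mul_zero, mul_zero]
      exact bot_le
  refine (ENNReal.tsum_le_tsum hterm).trans ?_
  rw [ENNReal.tsum_eq_iSup_sum]
  refine iSup_le fun A => ?_
  rw [← Finset.sum_filter, ← ENNReal.ofReal_sum_of_nonneg]
  · apply ENNReal.ofReal_le_ofReal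
    exact kernel_sum r σ hσ w₀ z hU hZ hq hq1 hcount n (A.filter P) fun γ hγ => (Finset.mem_filter.1 hγ).2
  · intro γ _
    have := one_le_cd r z w₀ γ
    positivity

variable (f : J → (W → ℍ) → (V → Quaternion ℝ) → ℂ) {lam : J → W → ℝ} {n : V → ℕ}
  {F : Set (W → ℍ)}

include hσ in
theorem core3 (hU : 6 ≤ U) (hL : ∀ w, 1 ≤ L w) (hZ : 0 ≤ Z) (hq : 0 < q) (hq1 : q ≤ 1)
    (hF : MeasurableSet F) (hcov : ∀ᵐ z : W → ℍ, {γ : G | (fun w => r w γ • z w) ∈ F}.Finite ∧
      ∃ γ : G, (fun w => r w γ • z w) ∈ F)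
    (hfc : ∀ j, Continuous (uncurry (f j)))
    (hinv : ∀ j γ z x, f j (fun w => r w γ • z w) (fun v => σ v γ * x v) = f j z x)
    (hE : ∀ j w z x, Eig (fun u => f j (update z w u) x) (lam j w))
    (hn : ∀ j z, f j z ∈ harm n)
    (ho : ∀ i j, ∫ p : (W → ℍ) × (V → S3), f i p.1 (fun v => p.2 v) * conj (f j p.1 (fun v => p.2 v))
      ∂((volume.restrict F).prod (sgV V)) = if i = j then 1 else 0)
    (hlam2 : ∀ j, ∀ w ≠ w₀, |lam j w| ≤ L w)
    {ϑ : J → ℝ} (hϑ : ∀ j, 0 ≤ ϑ j) (hϑ2 : ∀ j, ϑ j ≤ 1 / 2) (hlam : ∀ j, lam j w₀ ≤ 1 / 4 - ϑ j ^ 2)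
    (z : W → ℍ) (hcount : CountHyp r σ w₀ z U Z q) (x : V → S3) :
    ∑ j, U ^ (1 + 2 * ϑ j) * ‖f j z (fun v => (x v : Quaternion ℝ))‖ ^ 2 ≤
      (∏ w : Oth w₀, (17 * L w)) * KB V U Z q n := by
  have hU0 : 0 < U := by linarith
  have hU1 : 1 ≤ U := by linarith
  have hLpos : ∀ w, 0 < L w := fun w => by linarith [hL w]
  set xx : V → Quaternion ℝ := fun v => (x v : Quaternion ℝ) with hxx
  have hh : ∀ j, U ^ (1 / 2 + ϑ j) ≤ hT U (sp (lam j w₀)) := fun j => hT_ge hU (hϑ j) (hϑ2 j) (sp_ge (hlam j))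
  have hh0 : ∀ j, 0 < hT U (sp (lam j w₀)) := fun j => lt_of_lt_of_le (by positivity) (hh j)
  have hval : Continuous fun y : V → S3 => fun v => (y v : Quaternion ℝ) :=
    continuous_pi fun v => continuous_subtype_val.comp (continuous_apply v)
  have hcm := continuous_mk (W := W) w₀
  -- the functions on the product
  set e : J → (Oth w₀ → ℍ) → (ℍ × (V → Quaternion ℝ)) → ℂ := fun j z' y => f j (mk w₀ y.1 z') y.2 with he
  have hec : ∀ j y, Continuous fun z' => e j z' y := by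
    intro j y
    have h1 : Continuous fun z' : Oth w₀ → ℍ => (mk w₀ y.1 z', y.2) :=
      (hcm.comp (continuous_const.prodMk continuous_id)).prodMk continuous_const
    exact (hfc j).comp h1
  have hmeas : ∀ c y, Measurable fun z' => NN e c z' y := by
    intro c y
    have h1 : Continuous fun z' => ‖∑ j, c j * e j z' y‖ ^ 2 :=
      (continuous_finsetSum _ fun j _ => continuous_const.mul (hec j y)).norm.pow 2
    exact h1.measurable.ennreal_ofReal
  set A : Oth w₀ → Fin 2 → ℝ≥0∞ := fun w t => if t = 0 then ENNReal.ofReal (16 * L w) else ENNReal.ofReal (1 / L w) with hA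
  set m : Oth w₀ → Fin 2 → J → ℝ := fun w t j => if t = 0 then 1 else lam j w with hm
  set Bs : Oth w₀ → ℍ → Set ℍ := fun w u => EB u (1 / (2 * Real.sqrt (L w))) with hBs
  have hA1 : ∀ w c z' y, NN e c z' y ≤ ∑ t : Fin 2, A w t *
      ∫⁻ u in Bs w (z' w), NN e (fun j => (m w t j : ℂ) * c j) (update z' w u) y := by
    intro w c z' y
    rw [Fin.sum_univ_two]
    have key := loc_complex (e := fun j u => f j (update (mk w₀ y.1 z') w u) y.2) (lam := fun j => lam j w)
      (fun j => hE j w (mk w₀ y.1 z') y.2) (hL w) c (z' w)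
    simp only [update_mk_oth, update_eq_self] at key
    simp only [hA, hm, if_true, one_ne_zero, if_false, Complex.ofReal_one, one_mul]
    exact key
  have hC1 : ∀ (w : Oth w₀) (j : J), ∑ t : Fin 2, A w t * ENNReal.ofReal (m w t j ^ 2) ≤ ENNReal.ofReal (17 * L w) := by
    intro w j
    have hLw := hL w
    have hl := hlam2 j w w.2
    have hsq : lam j w ^ 2 ≤ L w ^ 2 := by
      rw [← sq_abs (lam j w)]
      gcongr
    rw [Fin.sum_univ_two]
    simp only [hA, hm, if_true, one_ne_zero, if_false, one_pow, ENNReal.ofReal_one, mul_one]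
    rw [← ENNReal.ofReal_mul (by positivity), ← ENNReal.ofReal_add (by positivity) (by positivity)]
    apply ENNReal.ofReal_le_ofReal
    have h5 : 1 / L w * lam j w ^ 2 ≤ L w := by
      rw [div_mul_eq_mul_div, one_mul, div_le_iff₀ (by linarith)]
      nlinarith
    linarith
  obtain ⟨ι, hι, A', m', hb, hmain⟩ := all_places (volume : Measure ℍ) e A m Bs
    (fun w _ => ENNReal.ofReal (17 * L w)) hA1 hC1 hmeas
  set z₁ : Oth w₀ → ℍ := fun w => z w with hz₁
  have hmkz : mk w₀ (z w₀) z₁ = z := mk_eta w₀ z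
  set B : Set ℍ := BD (z w₀) (rr U) with hB
  have hBm : MeasurableSet B := measurableSet_BD _ (rr_lt hU1)
  have hBc : B ⊆ Metric.closedBall (z w₀) (rad U) := BD_sub hU1 _
  have hBfin : (volume : Measure ℍ) B ≠ ∞ :=
    ((measure_mono hBc).trans_lt (ProperSpace.isCompact_closedBall (z w₀) (rad U)).measure_lt_top).ne
  set E : Set (Oth w₀ → ℍ) := EE w₀ L z with hEdef
  have hEm : MeasurableSet E := MeasurableSet.univ_pi fun w => (Pool.Agent.T2H31.isClosed_EB _ _).measurableSet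
  set E1 : Set (Oth w₀ → ℍ) := univ.pi fun w : Oth w₀ => Metric.closedBall (z w) 1 with hE1
  have hE1c : IsCompact E1 := isCompact_univ_pi fun w => ProperSpace.isCompact_closedBall _ _
  have hEsub : E ⊆ E1 := by
    intro z' hz' w _
    have hs : 1 ≤ Real.sqrt (L w) := Real.one_le_sqrt.2 (hL w)
    have hρ0 : 0 ≤ 1 / (2 * Real.sqrt (L w)) := by positivity
    have hρ : 1 / (2 * Real.sqrt (L w)) ≤ 1 / 2 := by
      gcongr
      linarith
    have a1 := Pool.Agent.T2H31.dist_of_EB hρ0 hρ (hz' w (mem_univ _))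
    rw [Metric.mem_closedBall]
    linarith
  have hEfin : (volume : Measure (Oth w₀ → ℍ)) E ≠ ∞ := ((measure_mono hEsub).trans_lt hE1c.measure_lt_top).ne
  -- the weight function
  set T1 : G → ℍ → ℍ := fun γ u => r w₀ γ • u with hT1
  set T2 : G → (Oth w₀ → ℍ) → (Oth w₀ → ℍ) := fun γ z' w => r w γ • z' w with hT2
  have h11 : ∀ u, T1 1 u = u := fun u => by simp only [hT1, map_one, one_smul]
  have h12 : ∀ γ δ u, T1 (γ * δ) u = T1 γ (T1 δ u) := fun γ δ u => by simp only [hT1, map_mul, mul_smul]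
  have h13 : ∀ γ, MeasurePreserving (T1 γ) (volume : Measure ℍ) volume := fun γ =>
    measurePreserving_smul ((r w₀ γ : SL(2, ℝ)) : GL (Fin 2) ℝ) (volume : Measure ℍ)
  have h21 : ∀ z', T2 1 z' = z' := fun z' => by
    funext w
    simp only [hT2, map_one, one_smul]
  have h22 : ∀ γ δ z', T2 (γ * δ) z' = T2 γ (T2 δ z') := fun γ δ z' => by
    funext w
    simp only [hT2, map_mul, mul_smul]
  have h23 : ∀ γ, MeasurePreserving (T2 γ) (volume : Measure (Oth w₀ → ℍ)) volume := fun γ =>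
    measurePreserving_pi _ _ fun w : Oth w₀ =>
      measurePreserving_smul ((r w γ : SL(2, ℝ)) : GL (Fin 2) ℝ) (volume : Measure ℍ)
  have hmkT : ∀ γ (p : ℍ × (Oth w₀ → ℍ)), mk w₀ (T1 γ p.1) (T2 γ p.2) = fun w => r w γ • mk w₀ p.1 p.2 w := by
    intro γ p
    funext w
    by_cases h : w = w₀
    · subst h
      rw [mk_self, mk_self]
    · rw [mk, dif_neg h, mk, dif_neg h]
  set F' : Set (ℍ × (Oth w₀ → ℍ)) := (fun p => mk w₀ p.1 p.2) ⁻¹' F with hF'
  have hF'm : MeasurableSet F' := hcm.measurable hF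
  obtain ⟨ω, hω, hω1, hω2⟩ := exists_omega ((volume : Measure ℍ).prod (volume : Measure (Oth w₀ → ℍ)))
    (fun (γ : G) p => (T1 γ p.1, T2 γ p.2))
    (fun γ δ p => by simp only [h12, h22]) (fun p => by simp only [h11, h21])
    (fun γ => ((h13 γ).prod (h23 γ)).measurable) hF'm (by
      have h1 := (mp_symm (W := W) w₀).quasiMeasurePreserving.ae hcov
      filter_upwards [h1] with p hp
      have e1 : ∀ γ : G, ((T1 γ p.1, T2 γ p.2) ∈ F') = ((fun w => r w γ • mk w₀ p.1 p.2 w) ∈ F) := by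
        intro γ
        show (mk w₀ (T1 γ p.1) (T2 γ p.2) ∈ F) = _
        rw [hmkT γ p]
      simp only [e1]
      exact hp)
  -- the linear identity and duality
  have hkey : ∀ c : J → ℂ, ∫⁻ z' in E, NN e c z' (z w₀, xx) ≤
      ENNReal.ofReal (KB V U Z q n) * ENNReal.ofReal (∑ j, ‖((hT U (sp (lam j w₀)))⁻¹ : ℂ) * c j‖ ^ 2) := by
    intro c
    set d : J → ℂ := fun j => ((hT U (sp (lam j w₀)))⁻¹ : ℂ) * c j with hd
    set g : ℍ × (Oth w₀ → ℍ) → (V → S3) → ℂ := fun p y => ∑ j, d j * f j (mk w₀ p.1 p.2) (fun v => (y v : Quaternion ℝ)) with hg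
    have hfp : ∀ j, Continuous fun t : (ℍ × (Oth w₀ → ℍ)) × (V → S3) =>
        f j (mk w₀ t.1.1 t.1.2) (fun v => (t.2 v : Quaternion ℝ)) := by
      intro j
      have h1 : Continuous fun t : (ℍ × (Oth w₀ → ℍ)) × (V → S3) =>
          (mk w₀ t.1.1 t.1.2, fun v => (t.2 v : Quaternion ℝ)) :=
        (hcm.comp continuous_fst).prodMk (hval.comp continuous_snd)
      exact (hfc j).comp h1
    have hgcont : Continuous (uncurry g) := continuous_finsetSum _ fun j _ => continuous_const.mul (hfp j)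
    have hgc : ∀ p, Continuous (g p) := fun p => by
      have h := hgcont.comp (continuous_const.prodMk continuous_id : Continuous fun y : V → S3 => (p, y))
      exact h
    have hharm : ∀ p : ℍ × (Oth w₀ → ℍ), (fun y : V → Quaternion ℝ => ∑ j, d j * f j (mk w₀ p.1 p.2) y) ∈ harm n := by
      intro p
      have : (fun y : V → Quaternion ℝ => ∑ j, d j * f j (mk w₀ p.1 p.2) y) = ∑ j, d j • f j (mk w₀ p.1 p.2) := by
        funext y
        simp
      rw [this]
      exact Submodule.sum_mem _ fun j _ => Submodule.smul_mem _ _ (hn j _)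
    have hrep : ∀ p y, ∫ c, g p (y * c) * ((TH n c : ℝ) : ℂ) ∂(sgV V) = g p y := fun p y => repr_harm (hharm p) y
    have hgi : ∀ (γ : G) p y, g (T1 γ p.1, T2 γ p.2) (sS σ hσ γ * y) = g p y := by
      intro γ p y
      simp only [hg]
      refine Finset.sum_congr rfl fun j _ => ?_
      congr 1
      rw [hmkT γ p, ← hinv j γ (mk w₀ p.1 p.2) (fun v => (y v : Quaternion ℝ))]
      rfl
    obtain ⟨k, hk⟩ : ∃ k, ∀ p ∈ Metric.closedBall (z w₀) (rad U) ×ˢ E1, ‖g p x‖ ≤ k := by
      refine ((ProperSpace.isCompact_closedBall (z w₀) (rad U)).prod hE1c).exists_bound_of_continuousOn ?_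
      have h : Continuous fun p => g p x := hgcont.comp (continuous_id.prodMk continuous_const)
      exact h.continuousOn
    have hsmul : ∀ g h : G, sS σ hσ (g * h) = sS σ hσ g * sS σ hσ h := by
      intro a b
      funext v
      apply Subtype.ext
      exact map_mul (σ v) a b
    have key := dual_main (volume : Measure ℍ) (volume : Measure (Oth w₀ → ℍ)) T1 T2 h11 h12 h13 h21 h22 h23
      (sS σ hσ) hsmul g n hgc hrep hgi hgcont.measurable hF'm hω hω1 hω2 hBm hBfin hEm hEfin (k := k) x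
      (fun u hu z' hz' => hk (u, z') ⟨hBc hu, hEsub hz'⟩)
      (kernel_tsum r σ hσ hU1 hZ hq hq1 hL z hcount n)
    have hlin : ∀ z' : Oth w₀ → ℍ, ∫ u in B, g (u, z') x = ∑ j, c j * e j z' (z w₀, xx) := by
      intro z'
      have hEig : ∀ j, Eig (fun u => f j (mk w₀ u z') xx) (lam j w₀) := by
        intro j
        have h1 := hE j w₀ (mk w₀ (z w₀) z') xx
        simp only [update_mk_self] at h1
        exact h1
      simp only [hg]
      rw [integral_finsetSum]
      · refine Finset.sum_congr rfl fun j _ => ?_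
        rw [integral_const_mul]
        have h1 := mean_linear (hEig j) (by have := hlam j; have := sq_nonneg (ϑ j); linarith) hU1 (z w₀)
        rw [hB]
        rw [show (∫ u in BD (z w₀) (rr U), f j (mk w₀ (u, z').1 (u, z').2) fun v => (x v : Quaternion ℝ)) =
          ∫ u in BD (z w₀) (rr U), f j (mk w₀ u z') xx from rfl, h1]
        simp only [hd, he]
        have h2 : ((hT U (sp (lam j w₀)) : ℝ) : ℂ) ≠ 0 := by exact_mod_cast (hh0 j).ne'
        field_simp
      · intro j _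
        exact (integrable_BD (hEig j).cont hU1 (z w₀)).const_mul _
    simp_rw [hlin] at key
    refine key.trans ?_
    rw [mul_comm]
    refine mul_le_mul' le_rfl (le_of_eq ?_)
    -- orthonormality
    set Ψ : (W → ℍ) → ℝ≥0∞ := fun z => ∫⁻ y, NN f d z (fun v => (y v : Quaternion ℝ)) ∂(sgV V) with hΨ
    have hmy : Measurable fun p : (W → ℍ) × (V → S3) => NN f d p.1 (fun v => (p.2 v : Quaternion ℝ)) := by
      have h3 : Continuous fun p : (W → ℍ) × (V → S3) => (p.1, fun v => (p.2 v : Quaternion ℝ)) :=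
        continuous_fst.prodMk (hval.comp continuous_snd)
      have h4 : Continuous fun p : (W → ℍ) × (V → S3) => ‖∑ j, d j * f j p.1 (fun v => (p.2 v : Quaternion ℝ))‖ ^ 2 :=
        (continuous_finsetSum _ fun j _ => continuous_const.mul ((hfc j).comp h3)).norm.pow 2
      exact h4.measurable.ennreal_ofReal
    have hΨm : Measurable Ψ := hmy.lintegral_prod_right'
    have e1 : ∀ p : ℍ × (Oth w₀ → ℍ), ENNReal.ofReal (∫ c, ‖g p c‖ ^ 2 ∂(sgV V)) = Ψ (mk w₀ p.1 p.2) := by
      intro p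
      have hint : Integrable (fun y => ‖g p y‖ ^ 2) (sgV V) :=
        ((hgc p).norm.pow 2).integrable_of_hasCompactSupport (HasCompactSupport.of_compactSpace _)
      rw [ofReal_integral_eq_lintegral_ofReal hint (Filter.Eventually.of_forall fun y => sq_nonneg _)]
      rfl
    simp_rw [e1]
    have e2 := (mp_symm (W := W) w₀).setLIntegral_comp_preimage hF hΨm
    have e3 : ∫⁻ p in F', Ψ (mk w₀ p.1 p.2) ∂((volume : Measure ℍ).prod (volume : Measure (Oth w₀ → ℍ))) = ∫⁻ z in F, Ψ z := e2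
    rw [e3, hΨ, ← lintegral_prod _ hmy.aemeasurable]
    refine orth_sum _ (fun j (p : (W → ℍ) × (V → S3)) => f j p.1 (fun v => p.2 v)) (fun j => ?_) ho d
    have h3 : Continuous fun p : (W → ℍ) × (V → S3) => (p.1, fun v => (p.2 v : Quaternion ℝ)) :=
      continuous_fst.prodMk (hval.comp continuous_snd)
    exact ((hfc j).comp h3).aestronglyMeasurable
  -- everything together
  set M : ℝ := ∏ w : Oth w₀, (17 * L w) with hM
  have hM0 : 0 ≤ M := Finset.prod_nonneg fun w _ => by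
    have := hLpos w
    positivity
  have hKB0 : 0 ≤ KB V U Z q n := by
    unfold KB
    have h1 : 0 ≤ ∏ v, ((n v : ℝ) + 1) := Finset.prod_nonneg fun v _ => by positivity
    positivity
  have hall : ∀ c : J → ℂ, NN f c z xx ≤
      ENNReal.ofReal (KB V U Z q n) * ENNReal.ofReal (M * ∑ j, ‖((hT U (sp (lam j w₀)))⁻¹ : ℂ) * c j‖ ^ 2) := by
    intro c
    have h0 : NN f c z xx = NN e c z₁ (z w₀, xx) := by
      simp only [NN, he, hmkz]
    calc NN f c z xx = NN e c z₁ (z w₀, xx) := h0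
      _ ≤ ∑ i, A' i * ∫⁻ z' in E, NN e (fun j => (m' i j : ℂ) * c j) z' (z w₀, xx) := hmain c z₁ (z w₀, xx)
      _ ≤ ∑ i, A' i * (ENNReal.ofReal (KB V U Z q n) *
          ENNReal.ofReal (∑ j, ‖((hT U (sp (lam j w₀)))⁻¹ : ℂ) * ((m' i j : ℂ) * c j)‖ ^ 2)) :=
          Finset.sum_le_sum fun i _ => mul_le_mul' le_rfl (hkey _)
      _ = ENNReal.ofReal (KB V U Z q n) * ∑ j, (∑ i, A' i * ENNReal.ofReal (m' i j ^ 2)) *
          ENNReal.ofReal (‖((hT U (sp (lam j w₀)))⁻¹ : ℂ) * c j‖ ^ 2) := by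
          simp_rw [Finset.sum_mul]
          rw [Finset.sum_comm, Finset.mul_sum]
          refine Finset.sum_congr rfl fun i _ => ?_
          rw [ENNReal.ofReal_sum_of_nonneg (fun j _ => sq_nonneg _), Finset.mul_sum, Finset.mul_sum, Finset.mul_sum]
          refine Finset.sum_congr rfl fun j _ => ?_
          rw [show ((hT U (sp (lam j w₀)))⁻¹ : ℂ) * ((m' i j : ℂ) * c j) =
            (m' i j : ℂ) * (((hT U (sp (lam j w₀)))⁻¹ : ℂ) * c j) by ring,
            norm_mul (m' i j : ℂ), mul_pow, Complex.norm_real, Real.norm_eq_abs, sq_abs, ENNReal.ofReal_mul (sq_nonneg _)]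
          ring
      _ ≤ ENNReal.ofReal (KB V U Z q n) * ∑ j, ENNReal.ofReal M *
          ENNReal.ofReal (‖((hT U (sp (lam j w₀)))⁻¹ : ℂ) * c j‖ ^ 2) := by
          refine mul_le_mul' le_rfl (Finset.sum_le_sum fun j _ => mul_le_mul' ?_ le_rfl)
          rw [hM, ENNReal.ofReal_prod_of_nonneg (fun w _ => by have := hLpos w; positivity)]
          exact hb j
      _ = _ := by
          rw [← Finset.mul_sum, ← ENNReal.ofReal_sum_of_nonneg (fun j _ => sq_nonneg _), ENNReal.ofReal_mul hM0]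
  -- duality in the coefficients
  set S : ℝ := ∑ j, U ^ (1 + 2 * ϑ j) * ‖f j z xx‖ ^ 2 with hS
  have hS0 : 0 ≤ S := Finset.sum_nonneg fun j _ => by positivity
  have hdual := hall (fun j => ((U ^ (1 + 2 * ϑ j) : ℝ) : ℂ) * conj (f j z xx))
  have e2 : NN f (fun j => ((U ^ (1 + 2 * ϑ j) : ℝ) : ℂ) * conj (f j z xx)) z xx = ENNReal.ofReal (S ^ 2) := by
    rw [NN]
    congr 2
    have : ∑ j, ((U ^ (1 + 2 * ϑ j) : ℝ) : ℂ) * conj (f j z xx) * f j z xx = ((S : ℝ) : ℂ) := by
      rw [hS]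
      push_cast
      refine Finset.sum_congr rfl fun j _ => ?_
      rw [mul_assoc, mul_comm (conj (f j z xx)), Complex.mul_conj, Complex.normSq_eq_norm_sq]
      push_cast
      rfl
    rw [this, Complex.norm_real, Real.norm_of_nonneg hS0]
  have e3 : ∑ j, ‖((hT U (sp (lam j w₀)))⁻¹ : ℂ) * (((U ^ (1 + 2 * ϑ j) : ℝ) : ℂ) * conj (f j z xx))‖ ^ 2 ≤ S := by
    rw [hS]
    refine Finset.sum_le_sum fun j _ => ?_
    have hUp : 0 < U ^ (1 + 2 * ϑ j) := by positivity
    have h1 := hh j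
    have h2 := hh0 j
    have h3 : U ^ (1 + 2 * ϑ j) = (U ^ (1 / 2 + ϑ j)) ^ 2 := by
      rw [← Real.rpow_natCast, ← Real.rpow_mul hU0.le]
      congr 1
      push_cast
      ring
    have h4 : U ^ (1 + 2 * ϑ j) ≤ hT U (sp (lam j w₀)) ^ 2 := by
      rw [h3]
      gcongr
    rw [norm_mul, norm_mul, RCLike.norm_conj, Complex.norm_real, Real.norm_of_nonneg hUp.le, norm_inv,
      Complex.norm_real, Real.norm_of_nonneg h2.le, mul_pow, mul_pow, inv_pow]
    rw [inv_mul_le_iff₀ (by positivity)]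
    have h5 : 0 ≤ ‖f j z xx‖ ^ 2 := sq_nonneg _
    calc (U ^ (1 + 2 * ϑ j)) ^ 2 * ‖f j z xx‖ ^ 2 = U ^ (1 + 2 * ϑ j) * (U ^ (1 + 2 * ϑ j) * ‖f j z xx‖ ^ 2) := by ring
      _ ≤ hT U (sp (lam j w₀)) ^ 2 * (U ^ (1 + 2 * ϑ j) * ‖f j z xx‖ ^ 2) :=
          mul_le_mul_of_nonneg_right h4 (by positivity)
  rw [e2, ← ENNReal.ofReal_mul hKB0] at hdual
  have hdual2 := (ENNReal.ofReal_le_ofReal_iff (mul_nonneg hKB0 (mul_nonneg hM0
    (Finset.sum_nonneg fun j _ => sq_nonneg _)))).1 hdual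
  rcases hS0.eq_or_lt with h | h
  · rw [← h]
    exact mul_nonneg hM0 hKB0
  · have h7 : S * S ≤ (M * KB V U Z q n) * S := by
      calc S * S = S ^ 2 := by ring
        _ ≤ _ := hdual2
        _ ≤ KB V U Z q n * (M * S) := by gcongr
        _ = _ := by ring
    exact le_of_mul_le_mul_right h7 h

end core

end Pool.Agent.H496.R6
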