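import Pool.Agent.H496.R4.Schur

/-! Unfolding and duality with the reproducing kernels of a compact factor. -/

set_option autoImplicit false

namespace Pool.Agent.H496.R6

open MeasureTheory Set Function
open scoped ENNReal NNReal ComplexConjugate
open Pool.Agent.H496 Pool.Agent.H496.R4

section unf
variable {X G : Type*} [MeasurableSpace X] (μ : Measure X) [Group G] [Countable G] (T : G → X → X)
    (hT1 : ∀ x, T 1 x = x) (hTm : ∀ g h x, T (g * h) x = T g (T h x)) (hmp : ∀ g, MeasurePreserving (T g) μ μ)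

include hT1 hTm hmp

theorem unfold_lint {ω : X → ℝ≥0∞} (hω : Measurable ω) (hω1 : ∀ᵐ x ∂μ, ∑' g, ω (T g x) = 1)
    {K : X → ℝ≥0∞} (hK : Measurable K) : ∫⁻ x, ω x * ∑' g, K (T g x) ∂μ = ∫⁻ x, K x ∂μ := by
  have hinvT : ∀ g x, T g (T g⁻¹ x) = x := fun g x => by rw [← hTm, mul_inv_cancel, hT1]
  calc ∫⁻ x, ω x * ∑' g, K (T g x) ∂μ = ∫⁻ x, ∑' g, ω x * K (T g x) ∂μ := by
        simp_rw [ENNReal.tsum_mul_left]
    _ = ∑' g, ∫⁻ x, ω x * K (T g x) ∂μ := by
        rw [lintegral_tsum]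
        intro g
        exact (hω.mul (hK.comp (hmp g).measurable)).aemeasurable
    _ = ∑' g, ∫⁻ x, ω (T g⁻¹ x) * K x ∂μ := by
        refine tsum_congr fun g => ?_
        have h1 := (hmp g⁻¹).lintegral_comp (f := fun x => ω x * K (T g x)) (hω.mul (hK.comp (hmp g).measurable))
        rw [← h1]
        refine lintegral_congr fun x => ?_
        rw [hinvT]
    _ = ∫⁻ x, (∑' g, ω (T g⁻¹ x)) * K x ∂μ := by
        rw [← lintegral_tsum]
        · refine lintegral_congr fun x => ?_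
          rw [ENNReal.tsum_mul_right]
        · intro g
          exact ((hω.comp (hmp g⁻¹).measurable).mul hK).aemeasurable
    _ = ∫⁻ x, K x ∂μ := by
        refine lintegral_congr_ae ?_
        filter_upwards [hω1] with x hx
        have h1 : ∑' g : G, ω (T g⁻¹ x) = ∑' g : G, ω (T g x) := (Equiv.inv G).tsum_eq (fun g => ω (T g x))
        rw [h1, hx, one_mul]

theorem unfold_boch {ω : X → ℝ≥0∞} (hω : Measurable ω) (hω1 : ∀ᵐ x ∂μ, ∑' g, ω (T g x) = 1) (hω2 : ∀ x, ω x ≤ 1)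
    {q : X → ℂ} (hqm : Measurable q) (hq : Integrable q μ) :
    ‖∫ x, q x ∂μ‖ₑ ≤ ∫⁻ x, ω x * ‖∑' g, q (T g x)‖ₑ ∂μ := by
  have hinvT : ∀ g x, T g (T g⁻¹ x) = x := fun g x => by rw [← hTm, mul_inv_cancel, hT1]
  have hfin : ∀ x, ω x ≠ ∞ := fun x => ((hω2 x).trans_lt ENNReal.one_lt_top).ne
  set ω' : X → ℂ := fun x => ((ω x).toReal : ℂ) with hω'
  have hω'm : Measurable ω' := Complex.measurable_ofReal.comp hω.ennreal_toReal
  have hen : ∀ x, ‖ω' x‖ₑ = ω x := by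
    intro x
    rw [hω']
    simp only
    rw [← ofReal_norm, Complex.norm_real, Real.norm_of_nonneg ENNReal.toReal_nonneg,
      ENNReal.ofReal_toReal (hfin x)]
  have hqe : Measurable fun x => ‖q x‖ₑ := hqm.enorm
  have e1 : ∫ x, q x ∂μ = ∫ x, ∑' g, ω' (T g⁻¹ x) * q x ∂μ := by
    refine integral_congr_ae ?_
    filter_upwards [hω1] with x hx
    rw [tsum_mul_right]
    have h1 : ∑' g : G, ω' (T g⁻¹ x) = 1 := by
      have h2 : ∑' g : G, ω' (T g⁻¹ x) = ∑' g : G, ω' (T g x) := (Equiv.inv G).tsum_eq (fun g => ω' (T g x))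
      rw [h2, hω']
      simp only
      rw [← Complex.ofReal_tsum, ← ENNReal.tsum_toReal_eq (fun g => hfin _), hx]
      simp
    rw [h1, one_mul]
  have hbound : ∑' g : G, ∫⁻ x, ‖ω' x * q (T g x)‖ₑ ∂μ ≠ ∞ := by
    have h1 : ∑' g : G, ∫⁻ x, ‖ω' x * q (T g x)‖ₑ ∂μ = ∫⁻ x, ‖q x‖ₑ ∂μ := by
      rw [← unfold_lint μ T hT1 hTm hmp hω hω1 hqe, ← lintegral_tsum]
      · refine lintegral_congr fun x => ?_
        rw [← ENNReal.tsum_mul_left]
        refine tsum_congr fun g => ?_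
        rw [enorm_mul, hen]
      · intro g
        exact (hω'm.mul (hqm.comp (hmp g).measurable)).enorm.aemeasurable
    rw [h1]
    exact hq.2.ne
  have e3 : ∀ g : G, ∫⁻ x, ‖ω' (T g⁻¹ x) * q x‖ₑ ∂μ = ∫⁻ x, ‖ω' x * q (T g x)‖ₑ ∂μ := by
    intro g
    have h1 := (hmp g⁻¹).lintegral_comp (f := fun x => ‖ω' x * q (T g x)‖ₑ)
      (hω'm.mul (hqm.comp (hmp g).measurable)).enorm
    rw [← h1]
    refine lintegral_congr fun x => ?_
    rw [hinvT]
  have e4 : ∀ g : G, ∫ x, ω' (T g⁻¹ x) * q x ∂μ = ∫ x, ω' x * q (T g x) ∂μ := by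
    intro g
    have h1 := integral_map (μ := μ) (φ := T g⁻¹) (hmp g⁻¹).measurable.aemeasurable
      (f := fun x => ω' x * q (T g x)) ((hω'm.mul (hqm.comp (hmp g).measurable)).aestronglyMeasurable)
    rw [(hmp g⁻¹).map_eq] at h1
    rw [h1]
    refine integral_congr_ae (Filter.Eventually.of_forall fun x => ?_)
    simp only [hinvT]
  rw [e1, integral_tsum]
  · simp_rw [e4]
    rw [← integral_tsum]
    · refine (enorm_integral_le_lintegral_enorm _).trans (le_of_eq ?_)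
      refine lintegral_congr fun x => ?_
      rw [tsum_mul_left, enorm_mul, hen]
    · intro g
      exact (hω'm.mul (hqm.comp (hmp g).measurable)).aestronglyMeasurable
    · exact hbound
  · intro g
    exact ((hω'm.comp (hmp g⁻¹).measurable).mul hqm).aestronglyMeasurable
  · simp_rw [e3]
    exact hbound

end unf

section point
variable {V : Type*} [Fintype V]

theorem cs_compact {f h : (V → S3) → ℂ} (hf : Continuous f) (hh : Continuous h) :
    ‖∫ c, f c * h c ∂(sgV V)‖ ^ 2 ≤ (∫ c, ‖f c‖ ^ 2 ∂(sgV V)) * ∫ c, ‖h c‖ ^ 2 ∂(sgV V) := by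
  have hint : ∀ {F : (V → S3) → ℝ}, Continuous F → Integrable F (sgV V) := fun h =>
    h.integrable_of_hasCompactSupport (HasCompactSupport.of_compactSpace _)
  have h1 : ‖∫ c, f c * h c ∂(sgV V)‖ ≤ ∫ c, ‖f c‖ * ‖h c‖ ∂(sgV V) := by
    refine (norm_integral_le_integral_norm _).trans (le_of_eq ?_)
    simp_rw [norm_mul]
  set a := ∫ c, ‖f c‖ ^ 2 ∂(sgV V) with ha
  set b := ∫ c, ‖h c‖ ^ 2 ∂(sgV V) with hb
  set m := ∫ c, ‖f c‖ * ‖h c‖ ∂(sgV V) with hm
  have ha0 : 0 ≤ a := integral_nonneg fun c => sq_nonneg _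
  have hb0 : 0 ≤ b := integral_nonneg fun c => sq_nonneg _
  have hm0 : 0 ≤ m := integral_nonneg fun c => mul_nonneg (norm_nonneg _) (norm_nonneg _)
  have key : ∀ t : ℝ, 0 ≤ b * (t * t) + (-2 * m) * t + a := by
    intro t
    have h2 : 0 ≤ ∫ c, (‖f c‖ - t * ‖h c‖) ^ 2 ∂(sgV V) := integral_nonneg fun c => sq_nonneg _
    have h3 : ∀ c, (‖f c‖ - t * ‖h c‖) ^ 2 = ‖f c‖ ^ 2 - (2 * t) * (‖f c‖ * ‖h c‖) + t ^ 2 * ‖h c‖ ^ 2 := fun c => by ring
    simp_rw [h3] at h2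
    have c1 : Continuous fun c => ‖f c‖ ^ 2 := hf.norm.pow 2
    have c2 : Continuous fun c => (2 * t) * (‖f c‖ * ‖h c‖) := continuous_const.mul (hf.norm.mul hh.norm)
    have c3 : Continuous fun c => t ^ 2 * ‖h c‖ ^ 2 := continuous_const.mul (hh.norm.pow 2)
    have c4 : Continuous fun c => ‖f c‖ ^ 2 - (2 * t) * (‖f c‖ * ‖h c‖) := c1.sub c2
    rw [integral_add (hint c4) (hint c3), integral_sub (hint c1) (hint c2), integral_const_mul, integral_const_mul] at h2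
    rw [← ha, ← hb, ← hm] at h2
    linarith [show b * (t * t) + (-2 * m) * t + a = a - 2 * t * m + t ^ 2 * b by ring]
  have h4 := discrim_le_zero key
  rw [discrim] at h4
  have h5 : ‖∫ c, f c * h c ∂(sgV V)‖ ^ 2 ≤ m ^ 2 := by gcongr
  nlinarith

variable {X G : Type*} [Group G] (T : G → X → X) (s : G → V → S3) (hs : ∀ g h, s (g * h) = s g * s h)
  (g : X → (V → S3) → ℂ) (n : V → ℕ) (hgc : ∀ p, Continuous (g p))
  (hrep : ∀ p x, ∫ y, g p (x * y) * ((TH n y : ℝ) : ℂ) ∂(sgV V) = g p x)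
  (hinv : ∀ γ p y, g (T γ p) (s γ * y) = g p y)

include hs hgc hrep hinv

theorem fin_bound (A : Finset G) (a : G → ℂ) (p : X) (x : V → S3) :
    ‖∑ γ ∈ A, a γ * g (T γ p) x‖ ^ 2 ≤ (∫ c, ‖g p c‖ ^ 2 ∂(sgV V)) *
      ∑ γ ∈ A, ∑ γ' ∈ A, ‖a γ‖ * ‖a γ'‖ * |TH n (s (γ' * γ⁻¹))| := by
  classical
  have hinvs : ∀ γ : G, s γ⁻¹ = (s γ)⁻¹ := by
    intro γ
    have h1 : s 1 = 1 := by
      have := hs 1 1
      rw [mul_one] at this
      exact (mul_eq_left.1 this.symm)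
    rw [eq_inv_iff_mul_eq_one, ← hs, inv_mul_cancel, h1]
  have hb : ∀ γ, g (T γ p) x = ∫ c, g p c * ((TH n ((x⁻¹ * s γ) * c) : ℝ) : ℂ) ∂(sgV V) := by
    intro γ
    rw [← hrep (T γ p) x]
    have h1 := int_leftV (x⁻¹ * s γ) (fun y => g (T γ p) (x * y) * ((TH n y : ℝ) : ℂ))
    rw [← h1]
    refine integral_congr_ae (Filter.Eventually.of_forall fun c => ?_)
    simp only
    congr 1
    rw [← hinv γ p c]
    congr 1
    group
  set P : (V → S3) → ℂ := fun c => ∑ γ ∈ A, a γ * ((TH n ((x⁻¹ * s γ) * c) : ℝ) : ℂ) with hP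
  have hk : ∀ γ, Continuous fun c : V → S3 => TH n ((x⁻¹ * s γ) * c) := fun γ =>
    (cont_TH n).comp (continuous_const.mul continuous_id)
  have hkc : ∀ γ, Continuous fun c : V → S3 => ((TH n ((x⁻¹ * s γ) * c) : ℝ) : ℂ) := fun γ =>
    Complex.continuous_ofReal.comp (hk γ)
  have hPc : Continuous P := continuous_finsetSum _ fun γ _ => continuous_const.mul (hkc γ)
  have h1 : ∑ γ ∈ A, a γ * g (T γ p) x = ∫ c, g p c * P c ∂(sgV V) := by
    simp_rw [hP, Finset.mul_sum]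
    have hc1 : ∀ γ, Continuous fun c => g p c * (a γ * ((TH n ((x⁻¹ * s γ) * c) : ℝ) : ℂ)) := fun γ =>
      (hgc p).mul (continuous_const.mul (hkc γ))
    rw [integral_finsetSum _ fun γ _ => integrable_V (hc1 γ)]
    refine Finset.sum_congr rfl fun γ _ => ?_
    rw [hb, ← integral_const_mul]
    refine integral_congr_ae (Filter.Eventually.of_forall fun c => ?_)
    simp only
    ring
  rw [h1]
  refine (cs_compact (hgc p) hPc).trans (mul_le_mul_of_nonneg_left ?_ (integral_nonneg fun c => sq_nonneg _))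
  have h2 : ∫ c, P c * conj (P c) ∂(sgV V) =
      ∑ i ∈ A, ∑ j ∈ A, a i * conj (a j) * ((TH n ((x⁻¹ * s i) * (x⁻¹ * s j)⁻¹) : ℝ) : ℂ) := by
    have e : ∀ c, P c * conj (P c) = ∑ i ∈ A, ∑ j ∈ A, a i * conj (a j) *
        (((TH n ((x⁻¹ * s i) * c) * TH n ((x⁻¹ * s j) * c) : ℝ)) : ℂ) := by
      intro c
      simp only [hP, map_sum, map_mul, Complex.conj_ofReal, Finset.sum_mul_sum]
      refine Finset.sum_congr rfl fun i _ => Finset.sum_congr rfl fun j _ => ?_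
      push_cast
      ring
    have hc : ∀ i j, Continuous fun c : V → S3 => a i * conj (a j) *
        (((TH n ((x⁻¹ * s i) * c) * TH n ((x⁻¹ * s j) * c) : ℝ)) : ℂ) :=
      fun i j => continuous_const.mul (Complex.continuous_ofReal.comp ((hk i).mul (hk j)))
    simp_rw [e]
    rw [integral_finsetSum _ fun i _ => integrable_V (continuous_finsetSum _ fun j _ => hc i j)]
    refine Finset.sum_congr rfl fun i _ => ?_
    rw [integral_finsetSum _ fun j _ => integrable_V (hc i j)]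
    refine Finset.sum_congr rfl fun j _ => ?_
    rw [integral_const_mul, integral_complex_ofReal, TH_inner]
  have e : ((∫ c, ‖P c‖ ^ 2 ∂(sgV V) : ℝ) : ℂ) = ∫ c, P c * conj (P c) ∂(sgV V) := by
    rw [← integral_complex_ofReal]
    refine integral_congr_ae (Filter.Eventually.of_forall fun c => ?_)
    simp only
    rw [Complex.mul_conj, Complex.normSq_eq_norm_sq]
  have e2 : ‖((∫ c, ‖P c‖ ^ 2 ∂(sgV V) : ℝ) : ℂ)‖ ≤ ∑ γ ∈ A, ∑ γ' ∈ A, ‖a γ‖ * ‖a γ'‖ * |TH n (s (γ' * γ⁻¹))| := by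
    rw [e, h2]
    refine (norm_sum_le _ _).trans (Finset.sum_le_sum fun i _ => ?_)
    refine (norm_sum_le _ _).trans (Finset.sum_le_sum fun j _ => ?_)
    rw [norm_mul, norm_mul, RCLike.norm_conj, Complex.norm_real, Real.norm_eq_abs]
    refine le_of_eq ?_
    congr 2
    have h3 : (x⁻¹ * s i) * (x⁻¹ * s j)⁻¹ = x⁻¹ * (s i * (s j)⁻¹) * (x⁻¹)⁻¹ := by group
    rw [h3, TH_conj, ← TH_inv, hs, hinvs]
    congr 1
    group
  rw [Complex.norm_real, Real.norm_eq_abs] at e2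
  exact (le_abs_self _).trans e2

end point

end Pool.Agent.H496.R6
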