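import Pool.Agent.H496.R6.Dual

/-! The main duality inequality. -/

set_option autoImplicit false

namespace Pool.Agent.H496.R6

open MeasureTheory Set Function
open scoped ENNReal NNReal ComplexConjugate
open Pool.Agent.H496 Pool.Agent.H496.R4

theorem cs_weight {X : Type*} [MeasurableSpace X] (μ : Measure X) {ω a D Y : X → ℝ≥0∞} (hω : Measurable ω)
    (ha : Measurable a) (hD : Measurable D) (h : ∀ x, Y x ^ 2 ≤ a x * D x) :
    (∫⁻ x, ω x * Y x ∂μ) ^ 2 ≤ (∫⁻ x, ω x * a x ∂μ) * ∫⁻ x, ω x * D x ∂μ := by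
  have h1 : ∀ x, ω x * Y x ≤ (ω x * a x) ^ (1 / 2 : ℝ) * (ω x * D x) ^ (1 / 2 : ℝ) := by
    intro x
    have h2 : (ω x * Y x) ^ 2 ≤ (ω x * a x) * (ω x * D x) := by
      calc (ω x * Y x) ^ 2 = ω x * ω x * Y x ^ 2 := by ring
        _ ≤ ω x * ω x * (a x * D x) := mul_le_mul' le_rfl (h x)
        _ = _ := by ring
    have h3 : ω x * Y x = ((ω x * Y x) ^ 2) ^ (1 / 2 : ℝ) := by
      rw [← ENNReal.rpow_natCast, ← ENNReal.rpow_mul]
      norm_num
    rw [h3, ← ENNReal.mul_rpow_of_nonneg _ _ (by norm_num : (0 : ℝ) ≤ 1 / 2)]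
    exact ENNReal.rpow_le_rpow h2 (by norm_num)
  have h4 := ENNReal.lintegral_mul_le_Lp_mul_Lq μ (p := 2) (q := 2) Real.HolderConjugate.two_two
    (f := fun x => (ω x * a x) ^ (1 / 2 : ℝ)) (g := fun x => (ω x * D x) ^ (1 / 2 : ℝ))
    ((hω.mul ha).pow_const _).aemeasurable ((hω.mul hD).pow_const _).aemeasurable
  have h5 : ∀ t : ℝ≥0∞, (t ^ (1 / 2 : ℝ)) ^ (2 : ℝ) = t := by
    intro t
    rw [← ENNReal.rpow_mul]
    norm_num
  simp_rw [h5] at h4
  have h6 : ∫⁻ x, ω x * Y x ∂μ ≤ (∫⁻ x, ω x * a x ∂μ) ^ (1 / 2 : ℝ) * (∫⁻ x, ω x * D x ∂μ) ^ (1 / 2 : ℝ) :=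
    (lintegral_mono h1).trans h4
  calc (∫⁻ x, ω x * Y x ∂μ) ^ 2 ≤ ((∫⁻ x, ω x * a x ∂μ) ^ (1 / 2 : ℝ) * (∫⁻ x, ω x * D x ∂μ) ^ (1 / 2 : ℝ)) ^ 2 := by
        gcongr
    _ = _ := by
        rw [mul_pow, ← ENNReal.rpow_natCast, ← ENNReal.rpow_natCast]
        push_cast
        rw [h5, h5]

theorem two_mul_le' (a b : ℝ≥0∞) : 2 * (a * b) ≤ a ^ 2 + b ^ 2 := by
  have key : ∀ a b : ℝ≥0∞, a ≤ b → 2 * (a * b) ≤ a ^ 2 + b ^ 2 := by
    intro a b hab
    obtain ⟨c, rfl⟩ := exists_add_of_le hab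
    calc 2 * (a * (a + c)) ≤ 2 * (a * (a + c)) + c ^ 2 := le_self_add
      _ = _ := by ring
  rcases le_total a b with h | h
  · exact key a b h
  · rw [mul_comm a b, add_comm]
    exact key b a h

theorem enorm_tsum_le {ι : Type*} {a : ι → ℂ} {M : ℝ≥0∞} (h : ∀ A : Finset ι, ‖∑ i ∈ A, a i‖ₑ ≤ M) :
    ‖∑' i, a i‖ₑ ≤ M := by
  by_cases hs : Summable a
  · have h1 : Filter.Tendsto (fun A : Finset ι => ∑ i ∈ A, a i) Filter.atTop (nhds (∑' i, a i)) := hs.hasSum
    exact le_of_tendsto h1.enorm (Filter.Eventually.of_forall h)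
  · rw [tsum_eq_zero_of_not_summable hs]
    simp

section main
variable {V : Type*} [Fintype V] {X1 X2 G : Type*} [MeasurableSpace X1] [MeasurableSpace X2]
  (μ1 : Measure X1) (μ2 : Measure X2) [SigmaFinite μ1] [SigmaFinite μ2]
  [Group G] [Countable G] (T1 : G → X1 → X1) (T2 : G → X2 → X2)
  (h11 : ∀ x, T1 1 x = x) (h12 : ∀ g h x, T1 (g * h) x = T1 g (T1 h x)) (h13 : ∀ g, MeasurePreserving (T1 g) μ1 μ1)
  (h21 : ∀ x, T2 1 x = x) (h22 : ∀ g h x, T2 (g * h) x = T2 g (T2 h x)) (h23 : ∀ g, MeasurePreserving (T2 g) μ2 μ2)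
  (s : G → V → S3) (hs : ∀ g h, s (g * h) = s g * s h)
  (g : X1 × X2 → (V → S3) → ℂ) (n : V → ℕ) (hgc : ∀ p, Continuous (g p))
  (hrep : ∀ p x, ∫ y, g p (x * y) * ((TH n y : ℝ) : ℂ) ∂(sgV V) = g p x)
  (hinv : ∀ (γ : G) p y, g (T1 γ p.1, T2 γ p.2) (s γ * y) = g p y)
  (hgm : Measurable (uncurry g))

include h11 h12 h13 h21 h22 h23 hs hgc hrep hinv hgm

theorem dual_main {F : Set (X1 × X2)} (hF : MeasurableSet F) {ω : X1 × X2 → ℝ≥0∞} (hω : Measurable ω)
    (hω1 : ∀ᵐ p ∂(μ1.prod μ2), ∑' γ, ω (T1 γ p.1, T2 γ p.2) = 1) (hω2 : ∀ p, ω p ≤ F.indicator 1 p)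
    {B : Set X1} (hB : MeasurableSet B) (hBfin : μ1 B ≠ ∞) {E : Set X2} (hE : MeasurableSet E) (hEfin : μ2 E ≠ ∞)
    {k : ℝ} (x : V → S3) (hk : ∀ u ∈ B, ∀ z ∈ E, ‖g (u, z) x‖ ≤ k) {S : ℝ≥0∞}
    (hS : ∑' δ : G, ENNReal.ofReal |TH n (s δ)| * (μ1 (B ∩ (T1 δ) ⁻¹' B) *
      {δ : G | ∃ z ∈ E, T2 δ z ∈ E}.indicator 1 δ) ≤ S) :
    ∫⁻ z in E, ENNReal.ofReal (‖∫ u in B, g (u, z) x ∂μ1‖ ^ 2) ∂μ2 ≤
      (∫⁻ p in F, ENNReal.ofReal (∫ c, ‖g p c‖ ^ 2 ∂(sgV V)) ∂(μ1.prod μ2)) * S := by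
  set μ := μ1.prod μ2 with hμ
  set T : G → X1 × X2 → X1 × X2 := fun γ p => (T1 γ p.1, T2 γ p.2) with hT
  have hT1 : ∀ p, T 1 p = p := fun p => by simp only [hT, h11, h21]
  have hTm : ∀ γ δ p, T (γ * δ) p = T γ (T δ p) := fun γ δ p => by simp only [hT, h12, h22]
  have hmp : ∀ γ, MeasurePreserving (T γ) μ μ := fun γ => (h13 γ).prod (h23 γ)
  have hω1' : ∀ᵐ p ∂μ, ∑' γ, ω (T γ p) = 1 := hω1
  have hgx : Measurable fun p => g p x := by
    have h := hgm.comp (measurable_prodMk_right (y := x) : Measurable fun p : X1 × X2 => (p, x))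
    exact h
  set Vf : X2 → ℂ := fun z => ∫ u in B, g (u, z) x ∂μ1 with hVf
  have hVm : Measurable Vf := by
    have h1 : StronglyMeasurable (uncurry fun (u : X1) (z : X2) => g (u, z) x) := hgx.stronglyMeasurable
    exact (h1.integral_prod_left (μ := μ1.restrict B)).measurable
  have hμB : IsFiniteMeasure (μ1.restrict B) := ⟨by
    rw [Measure.restrict_apply_univ]
    exact hBfin.lt_top⟩
  have hμE : IsFiniteMeasure (μ2.restrict E) := ⟨by
    rw [Measure.restrict_apply_univ]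
    exact hEfin.lt_top⟩
  have hVb : ∀ z ∈ E, ‖Vf z‖ ≤ k * (μ1 B).toReal := by
    intro z hz
    have h1 := norm_setIntegral_le_of_norm_le_const (μ := μ1) (s := B) (f := fun u => g (u, z) x) hBfin.lt_top
      (fun u hu => hk u hu z hz)
    exact h1
  set H : X1 × X2 → ℂ := (B ×ˢ E).indicator fun p => Vf p.2 with hH
  have hHm : Measurable H := (hVm.comp measurable_snd).indicator (hB.prod hE)
  set q : X1 × X2 → ℂ := fun p => g p x * conj (H p) with hq
  have hqm : Measurable q := hgx.mul (Complex.continuous_conj.measurable.comp hHm)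
  have hqi : q = (B ×ˢ E).indicator fun p => g p x * conj (Vf p.2) := by
    funext p
    by_cases hp : p ∈ B ×ˢ E
    · rw [hq, hH, indicator_of_mem hp]
      simp only
      rw [indicator_of_mem hp]
    · rw [hq, hH, indicator_of_notMem hp]
      simp only
      rw [indicator_of_notMem hp, map_zero, mul_zero]
  have hfin : μ (B ×ˢ E) ≠ ∞ := by
    rw [hμ, Measure.prod_prod]
    exact ENNReal.mul_ne_top hBfin hEfin
  have hqint' : IntegrableOn (fun p => g p x * conj (Vf p.2)) (B ×ˢ E) μ := by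
    refine Measure.integrableOn_of_bounded (M := k * (k * (μ1 B).toReal)) hfin ?_ ?_
    · exact (hgx.mul (Complex.continuous_conj.measurable.comp (hVm.comp measurable_snd))).aestronglyMeasurable
    · refine (ae_restrict_iff' (hB.prod hE)).2 (Filter.Eventually.of_forall fun p hp => ?_)
      rw [norm_mul, RCLike.norm_conj]
      have h1 := hk p.1 hp.1 p.2 hp.2
      have h2 := hVb p.2 hp.2
      have h3 : 0 ≤ k := (norm_nonneg _).trans h1
      exact mul_le_mul h1 h2 (norm_nonneg _) h3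
  have hqint : Integrable q μ := by
    rw [hqi]
    exact hqint'.integrable_indicator (hB.prod hE)
  set XX : ℝ≥0∞ := ∫⁻ z in E, ENNReal.ofReal (‖Vf z‖ ^ 2) ∂μ2 with hXX
  have hVsq : Integrable (fun z => ‖Vf z‖ ^ 2) (μ2.restrict E) := by
    refine Integrable.of_bound (hVm.norm.pow_const 2).aestronglyMeasurable ((k * (μ1 B).toReal) ^ 2) ?_
    refine (ae_restrict_iff' hE).2 (Filter.Eventually.of_forall fun z hz => ?_)
    rw [Real.norm_of_nonneg (sq_nonneg _)]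
    have := hVb z hz
    gcongr
  have hXreal : XX = ENNReal.ofReal (∫ z in E, ‖Vf z‖ ^ 2 ∂μ2) :=
    (ofReal_integral_eq_lintegral_ofReal hVsq (Filter.Eventually.of_forall fun z => sq_nonneg _)).symm
  have hXfin : XX ≠ ∞ := by
    rw [hXreal]
    exact ENNReal.ofReal_ne_top
  have hval : ∫ p, q p ∂μ = ((∫ z in E, ‖Vf z‖ ^ 2 ∂μ2 : ℝ) : ℂ) := by
    rw [hqi, integral_indicator (hB.prod hE)]
    have h1 : μ.restrict (B ×ˢ E) = (μ1.restrict B).prod (μ2.restrict E) := (Measure.prod_restrict B E).symm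
    have h2 : Integrable (fun p : X1 × X2 => g p x * conj (Vf p.2)) ((μ1.restrict B).prod (μ2.restrict E)) := by
      rw [← h1]
      exact hqint'
    rw [h1, integral_prod_symm _ h2, ← integral_complex_ofReal]
    refine integral_congr_ae (Filter.Eventually.of_forall fun z => ?_)
    simp only
    rw [integral_mul_const]
    show Vf z * conj (Vf z) = _
    rw [Complex.mul_conj, Complex.normSq_eq_norm_sq]
  have hXq : XX = ‖∫ p, q p ∂μ‖ₑ := by
    rw [hval, hXreal, ← ofReal_norm, Complex.norm_real, Real.norm_of_nonneg (integral_nonneg fun z => sq_nonneg _)]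
  have hω2' : ∀ p, ω p ≤ 1 := fun p => (hω2 p).trans (indicator_le_self' (fun _ _ => zero_le_one) p)
  have hmain := unfold_boch μ T hT1 hTm hmp hω hω1' hω2' hqm hqint
  rw [← hXq] at hmain
  -- the pointwise bound
  set a : X1 × X2 → ℝ≥0∞ := fun p => ENNReal.ofReal (∫ c, ‖g p c‖ ^ 2 ∂(sgV V)) with ha
  have ham : Measurable a := by
    have h1 : StronglyMeasurable (uncurry fun (p : X1 × X2) (c : V → S3) => ‖g p c‖ ^ 2) :=
      (hgm.norm.pow_const 2).stronglyMeasurable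
    exact (h1.integral_prod_right (ν := sgV V)).measurable.ennreal_ofReal
  set K : G → X1 × X2 → ℝ≥0∞ := fun δ p => ‖H p‖ₑ * ‖H (T δ p)‖ₑ with hK
  have hKm : ∀ δ, Measurable (K δ) := fun δ => hHm.enorm.mul (hHm.comp (hmp δ).measurable).enorm
  set D : X1 × X2 → ℝ≥0∞ := fun p => ∑' δ : G, ENNReal.ofReal |TH n (s δ)| * ∑' γ : G, K δ (T γ p) with hD
  have hDm : Measurable D := by
    refine Measurable.tsum fun δ => Measurable.const_mul ?_ _
    exact Measurable.tsum fun γ => (hKm δ).comp (hmp γ).measurable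
  have hpt : ∀ p, ‖∑' γ, q (T γ p)‖ₑ ^ 2 ≤ a p * D p := by
    intro p
    have hDp : D p = ∑' γ : G, ∑' γ' : G, ENNReal.ofReal (‖H (T γ p)‖ * ‖H (T γ' p)‖ * |TH n (s (γ' * γ⁻¹))|) := by
      rw [hD]
      simp only
      simp_rw [← ENNReal.tsum_mul_left]
      rw [ENNReal.tsum_comm]
      refine tsum_congr fun γ => ?_
      rw [← (Equiv.mulRight γ).tsum_eq (fun γ' : G => ENNReal.ofReal (‖H (T γ p)‖ * ‖H (T γ' p)‖ * |TH n (s (γ' * γ⁻¹))|))]
      refine tsum_congr fun δ => ?_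
      rw [hK, Equiv.coe_mulRight, mul_inv_cancel_right, ENNReal.ofReal_mul (by positivity),
        ENNReal.ofReal_mul (norm_nonneg _), ofReal_norm, ofReal_norm, hTm]
      simp only
      ring
    have hA : ∀ A : Finset G, ‖∑ γ ∈ A, q (T γ p)‖ₑ ≤ (a p * D p) ^ (1 / 2 : ℝ) := by
      intro A
      have h1 := fin_bound T s hs g n hgc hrep hinv A (fun γ => conj (H (T γ p))) p x
      have h2 : ∑ γ ∈ A, conj (H (T γ p)) * g (T γ p) x = ∑ γ ∈ A, q (T γ p) :=
        Finset.sum_congr rfl fun γ _ => mul_comm _ _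
      rw [h2] at h1
      simp only [RCLike.norm_conj] at h1
      have h3 : ‖∑ γ ∈ A, q (T γ p)‖ₑ ^ 2 ≤ a p * D p := by
        calc ‖∑ γ ∈ A, q (T γ p)‖ₑ ^ 2 = ENNReal.ofReal (‖∑ γ ∈ A, q (T γ p)‖ ^ 2) := by
              rw [ENNReal.ofReal_pow (norm_nonneg _), ofReal_norm]
          _ ≤ ENNReal.ofReal ((∫ c, ‖g p c‖ ^ 2 ∂(sgV V)) *
              ∑ γ ∈ A, ∑ γ' ∈ A, ‖H (T γ p)‖ * ‖H (T γ' p)‖ * |TH n (s (γ' * γ⁻¹))|) := ENNReal.ofReal_le_ofReal h1
          _ = a p * ∑ γ ∈ A, ∑ γ' ∈ A, ENNReal.ofReal (‖H (T γ p)‖ * ‖H (T γ' p)‖ * |TH n (s (γ' * γ⁻¹))|) := by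
              rw [ENNReal.ofReal_mul (integral_nonneg fun c => sq_nonneg _),
                ENNReal.ofReal_sum_of_nonneg (fun i _ => Finset.sum_nonneg fun j _ => by positivity)]
              congr 1
              refine Finset.sum_congr rfl fun i _ => ?_
              rw [ENNReal.ofReal_sum_of_nonneg (fun j _ => by positivity)]
          _ ≤ a p * D p := by
              refine mul_le_mul' le_rfl ?_
              rw [hDp]
              refine (Finset.sum_le_sum fun i _ => ENNReal.sum_le_tsum A).trans ?_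
              exact ENNReal.sum_le_tsum A
      have h4 := ENNReal.rpow_le_rpow h3 (by norm_num : (0 : ℝ) ≤ 1 / 2)
      rw [← ENNReal.rpow_natCast, ← ENNReal.rpow_mul] at h4
      norm_num at h4 ⊢
      exact h4
    have h5 := enorm_tsum_le hA
    calc ‖∑' γ, q (T γ p)‖ₑ ^ 2 ≤ ((a p * D p) ^ (1 / 2 : ℝ)) ^ 2 := by gcongr
      _ = a p * D p := by
          rw [← ENNReal.rpow_natCast, ← ENNReal.rpow_mul]
          norm_num
  have hcs := cs_weight μ hω ham hDm hpt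
  -- the two integrals
  have hI1 : ∫⁻ p, ω p * a p ∂μ ≤ ∫⁻ p in F, a p ∂μ := by
    rw [← lintegral_indicator hF]
    refine lintegral_mono fun p => ?_
    by_cases hp : p ∈ F
    · rw [indicator_of_mem hp]
      calc ω p * a p ≤ 1 * a p := mul_le_mul' (hω2' p) le_rfl
        _ = a p := one_mul _
    · have h1 := hω2 p
      rw [indicator_of_notMem hp] at h1
      rw [indicator_of_notMem hp, nonpos_iff_eq_zero.1 h1, zero_mul]
  have hKint : ∀ δ, ∫⁻ p, K δ p ∂μ ≤ (μ1 (B ∩ (T1 δ) ⁻¹' B) * {δ : G | ∃ z ∈ E, T2 δ z ∈ E}.indicator 1 δ) * XX := by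
    intro δ
    set v : X2 → ℝ≥0∞ := E.indicator fun z => ‖Vf z‖ₑ with hv
    have hvm : Measurable v := hVm.enorm.indicator hE
    have hBm : MeasurableSet (B ∩ (T1 δ) ⁻¹' B) := hB.inter ((h13 δ).measurable hB)
    have e1 : ∀ p : X1 × X2, K δ p = (B ∩ (T1 δ) ⁻¹' B).indicator 1 p.1 * (v p.2 * v (T2 δ p.2)) := by
      intro p
      have e2 : ∀ p : X1 × X2, ‖H p‖ₑ = B.indicator 1 p.1 * v p.2 := by
        intro p
        rw [hH, hv]
        by_cases h1 : p.1 ∈ B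
        · by_cases h2 : p.2 ∈ E
          · rw [indicator_of_mem (show p ∈ B ×ˢ E from ⟨h1, h2⟩), indicator_of_mem h1, indicator_of_mem h2]
            simp
          · rw [indicator_of_notMem (fun h : p ∈ B ×ˢ E => h2 h.2), indicator_of_notMem h2]
            simp
        · rw [indicator_of_notMem (fun h : p ∈ B ×ˢ E => h1 h.1), indicator_of_notMem h1]
          simp
      have e3 : (B ∩ (T1 δ) ⁻¹' B).indicator (1 : X1 → ℝ≥0∞) p.1 = B.indicator 1 p.1 * B.indicator 1 (T1 δ p.1) := by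
        by_cases h1 : p.1 ∈ B
        · by_cases h2 : T1 δ p.1 ∈ B
          · rw [indicator_of_mem (show p.1 ∈ B ∩ (T1 δ) ⁻¹' B from ⟨h1, h2⟩), indicator_of_mem h1, indicator_of_mem h2]
            simp
          · rw [indicator_of_notMem (fun h : p.1 ∈ B ∩ (T1 δ) ⁻¹' B => h2 h.2), indicator_of_notMem h2, mul_zero]
        · rw [indicator_of_notMem (fun h : p.1 ∈ B ∩ (T1 δ) ⁻¹' B => h1 h.1), indicator_of_notMem h1, zero_mul]
      rw [hK]
      simp only
      rw [e2, e2, e3]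
      simp only [hT]
      ring
    simp_rw [e1]
    rw [hμ, lintegral_prod_mul (f := (B ∩ (T1 δ) ⁻¹' B).indicator 1) (g := fun z => v z * v (T2 δ z))
      (measurable_one.indicator hBm).aemeasurable (hvm.mul (hvm.comp (h23 δ).measurable)).aemeasurable,
      lintegral_indicator_one hBm, mul_assoc]
    refine mul_le_mul' le_rfl ?_
    have hvsq : ∫⁻ z, v z ^ 2 ∂μ2 = XX := by
      rw [hXX, ← lintegral_indicator hE]
      refine lintegral_congr fun z => ?_
      rw [hv]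
      by_cases hz : z ∈ E
      · rw [indicator_of_mem hz, indicator_of_mem hz, ENNReal.ofReal_pow (norm_nonneg _), ofReal_norm]
      · rw [indicator_of_notMem hz, indicator_of_notMem hz]
        simp
    by_cases hδ : ∃ z ∈ E, T2 δ z ∈ E
    · rw [indicator_of_mem (show δ ∈ {δ : G | ∃ z ∈ E, T2 δ z ∈ E} from hδ), Pi.one_apply, one_mul]
      have h1 : ∫⁻ z, 2 * (v z * v (T2 δ z)) ∂μ2 ≤ 2 * XX := by
        calc ∫⁻ z, 2 * (v z * v (T2 δ z)) ∂μ2 ≤ ∫⁻ z, (v z ^ 2 + v (T2 δ z) ^ 2) ∂μ2 := by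
              refine lintegral_mono fun z => ?_
              simp only
              exact two_mul_le' (v z) (v (T2 δ z))
          _ = ∫⁻ z, v z ^ 2 ∂μ2 + ∫⁻ z, v (T2 δ z) ^ 2 ∂μ2 := lintegral_add_left (hvm.pow_const 2) _
          _ = XX + XX := by
              have h2 := (h23 δ).lintegral_comp (f := fun z => v z ^ 2) (hvm.pow_const 2)
              rw [h2, hvsq]
          _ = 2 * XX := (two_mul _).symm
      rw [lintegral_const_mul' _ _ ENNReal.ofNat_ne_top] at h1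
      exact (ENNReal.mul_le_mul_iff_right two_ne_zero ENNReal.ofNat_ne_top).1 h1
    · rw [indicator_of_notMem (show δ ∉ {δ : G | ∃ z ∈ E, T2 δ z ∈ E} from hδ), zero_mul]
      have h1 : ∀ z, v z * v (T2 δ z) = 0 := by
        intro z
        by_cases hz : z ∈ E
        · have : T2 δ z ∉ E := fun h => hδ ⟨z, hz, h⟩
          rw [hv, indicator_of_notMem this, mul_zero]
        · rw [hv, indicator_of_notMem hz, zero_mul]
      simp_rw [h1, lintegral_zero]
      exact le_rfl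
  have hI2 : ∫⁻ p, ω p * D p ∂μ ≤ S * XX := by
    calc ∫⁻ p, ω p * D p ∂μ = ∫⁻ p, ∑' δ : G, ENNReal.ofReal |TH n (s δ)| * (ω p * ∑' γ : G, K δ (T γ p)) ∂μ := by
          refine lintegral_congr fun p => ?_
          rw [hD]
          simp only
          rw [← ENNReal.tsum_mul_left]
          refine tsum_congr fun δ => ?_
          ring
      _ = ∑' δ : G, ENNReal.ofReal |TH n (s δ)| * ∫⁻ p, K δ p ∂μ := by
          have hm1 : ∀ δ, Measurable fun p => ω p * ∑' γ : G, K δ (T γ p) := fun δ =>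
            hω.mul (Measurable.tsum fun γ => (hKm δ).comp (hmp γ).measurable)
          rw [lintegral_tsum fun δ => ((hm1 δ).const_mul _).aemeasurable]
          refine tsum_congr fun δ => ?_
          rw [lintegral_const_mul _ (hm1 δ), unfold_lint μ T hT1 hTm hmp hω hω1' (hKm δ)]
      _ ≤ ∑' δ : G, (ENNReal.ofReal |TH n (s δ)| * (μ1 (B ∩ (T1 δ) ⁻¹' B) *
          {δ : G | ∃ z ∈ E, T2 δ z ∈ E}.indicator 1 δ)) * XX := by
          refine ENNReal.tsum_le_tsum fun δ => ?_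
          rw [mul_assoc]
          exact mul_le_mul' le_rfl (hKint δ)
      _ ≤ S * XX := by
          rw [ENNReal.tsum_mul_right]
          exact mul_le_mul' hS le_rfl
  -- conclusion
  have hfinal : XX ^ 2 ≤ ((∫⁻ p in F, a p ∂μ) * S) * XX := by
    calc XX ^ 2 ≤ (∫⁻ p, ω p * ‖∑' γ, q (T γ p)‖ₑ ∂μ) ^ 2 := by gcongr
      _ ≤ (∫⁻ p, ω p * a p ∂μ) * ∫⁻ p, ω p * D p ∂μ := hcs
      _ ≤ (∫⁻ p in F, a p ∂μ) * (S * XX) := mul_le_mul' hI1 hI2
      _ = _ := by ring
  by_cases hX0 : XX = 0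
  · rw [hX0]
    exact bot_le
  · rw [sq] at hfinal
    exact (ENNReal.mul_le_mul_iff_left hX0 hXfin).1 hfinal

end main

end Pool.Agent.H496.R6
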