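import Pool.Agent.H496.A1.Place
import Pool.Agent.H496.R6.Mid

/-! The mean value over a hyperbolic ball as a linear identity. -/

set_option autoImplicit false

namespace Pool.Agent.H496.R6

open Complex MeasureTheory Set Function
open UpperHalfPlane hiding I
open scoped ENNReal NNReal
open Pool.Agent.T2H31
open Pool.Agent.H496

/-- the hyperbolic ball as the image of a disc -/
def BD (z : ℍ) (r₀ : ℝ) : Set ℍ := {u : ℍ | (u : ℂ) ∈ cay z '' Metric.ball 0 r₀}

/-- polar coordinates -/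
noncomputable def Ph (z : ℍ) (p : ℝ × ℝ) : ℍ := ofComplex (cay z (p.1 * ee p.2))

/-- the rectangle -/
def Rec (r₀ : ℝ) : Set (ℝ × ℝ) := Ioo 0 r₀ ×ˢ Ioo (-Real.pi) Real.pi

theorem measurableSet_Rec (r₀ : ℝ) : MeasurableSet (Rec r₀) := measurableSet_Ioo.prod measurableSet_Ioo

theorem cont_cay (z : ℍ) : ContinuousOn (cay z) DD := fun _ hw =>
  (hasDerivAt_cay z hw).continuousAt.continuousWithinAt

theorem measurableSet_img (z : ℍ) {r₀ : ℝ} (h1 : r₀ < 1) : MeasurableSet (cay z '' Metric.ball 0 r₀) := by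
  have hD : Metric.ball (0 : ℂ) r₀ ⊆ DD := Metric.ball_subset_ball h1.le
  exact Metric.isOpen_ball.measurableSet.image_of_continuousOn_injOn ((cont_cay z).mono hD) ((cay_inj z).mono hD)

theorem measurableSet_BD (z : ℍ) {r₀ : ℝ} (h1 : r₀ < 1) : MeasurableSet (BD z r₀) :=
  (measurable_coe) (measurableSet_img z h1)

theorem coe_BD (z : ℍ) {r₀ : ℝ} (h1 : r₀ < 1) : ((↑) : ℍ → ℂ) '' BD z r₀ = cay z '' Metric.ball 0 r₀ := by
  have hD : Metric.ball (0 : ℂ) r₀ ⊆ DD := Metric.ball_subset_ball h1.le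
  ext w
  constructor
  · rintro ⟨u, hu, rfl⟩
    exact hu
  · rintro ⟨w', hw', rfl⟩
    exact ⟨⟨cay z w', cay_mem z (hD hw')⟩, ⟨w', hw', rfl⟩, rfl⟩

theorem polar_eq {F : ℍ → ℝ≥0∞} (hF : Measurable F) (z : ℍ) {r₀ : ℝ} (h1 : r₀ < 1) :
    ∫⁻ u in BD z r₀, F u = ∫⁻ p in Rec r₀, ENNReal.ofReal (4 * p.1 / (1 - p.1 ^ 2) ^ 2) * F (Ph z p) := by
  set D0 : Set ℂ := Metric.ball 0 r₀ with hD0
  have hD : D0 ⊆ DD := Metric.ball_subset_ball h1.le
  have hmD : MeasurableSet D0 := Metric.isOpen_ball.measurableSet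
  have hdc : ∀ w ∈ D0, HasFDerivWithinAt (cay z)
      (ContinuousLinearMap.mul ℝ ℂ (2 * I * z.im / (1 - w) ^ 2)) D0 w := by
    intro w hw
    have h := (hasDerivAt_cay z (hD hw)).hasFDerivAt.restrictScalars ℝ
    refine (h.congr_fderiv ?_).hasFDerivWithinAt
    ext v
    simp [mul_comm]
  have hdet : ∀ w : ℂ, (ContinuousLinearMap.mul ℝ ℂ (2 * I * z.im / (1 - w) ^ 2)).det =
      ‖2 * I * z.im / (1 - w) ^ 2‖ ^ 2 := fun w => det_mul _ _ fun v => rfl
  have s1 : ∫⁻ u in BD z r₀, F u =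
      ∫⁻ w in D0, ENNReal.ofReal (4 / (1 - ‖w‖ ^ 2) ^ 2) * F (ofComplex (cay z w)) := by
    rw [lintegral_H hF (measurableSet_BD z h1), coe_BD z h1,
      lintegral_image_eq_lintegral_abs_det_fderiv_mul volume hmD hdc ((cay_inj z).mono hD)]
    refine setLIntegral_congr_fun hmD fun w hw => ?_
    have h2 := norm_deriv_cay z (hD hw)
    rw [(hasDerivAt_cay z (hD hw)).deriv] at h2
    have h3 : 0 < (cay z w).im := cay_mem z (hD hw)
    simp only [hdet]
    rw [abs_of_nonneg (sq_nonneg _), h2, mul_comm (F _), ← mul_assoc, ← ENNReal.ofReal_mul (by positivity)]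
    congr 2
    field_simp
  rw [s1, ← lintegral_indicator hmD, ← Complex.lintegral_comp_polarCoord_symm]
  have hsub : Rec r₀ ⊆ polarCoord.target := by
    rw [polarCoord_target]
    exact prod_mono (fun x hx => hx.1) Subset.rfl
  have hmt : MeasurableSet polarCoord.target := polarCoord.open_target.measurableSet
  rw [← lintegral_indicator hmt, ← lintegral_indicator (measurableSet_Rec r₀)]
  refine lintegral_congr fun p => ?_
  by_cases hp : p ∈ Rec r₀
  · rw [indicator_of_mem (hsub hp), indicator_of_mem hp]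
    obtain ⟨hp1, hp2⟩ := hp
    have he : Complex.polarCoord.symm p = p.1 * ee p.2 := by
      rw [Complex.polarCoord_symm_apply, ee_eq]
    have hn : ‖(p.1 : ℂ) * ee p.2‖ = p.1 := by
      rw [norm_mul, norm_ee, mul_one, Complex.norm_real, Real.norm_eq_abs, abs_of_pos hp1.1]
    have hmem : (p.1 : ℂ) * ee p.2 ∈ D0 := by
      rw [hD0, mem_ball_zero_iff, hn]
      exact hp1.2
    rw [he, indicator_of_mem hmem, hn, smul_eq_mul, ← mul_assoc, ← ENNReal.ofReal_mul hp1.1.le]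
    congr 2
    ring
  · rw [indicator_of_notMem hp]
    by_cases ht : p ∈ polarCoord.target
    · rw [indicator_of_mem ht]
      have ht' := ht
      rw [polarCoord_target] at ht'
      have he : Complex.polarCoord.symm p = p.1 * ee p.2 := by
        rw [Complex.polarCoord_symm_apply, ee_eq]
      have hp0 : 0 < p.1 := ht'.1
      have hn : ‖(p.1 : ℂ) * ee p.2‖ = p.1 := by
        rw [norm_mul, norm_ee, mul_one, Complex.norm_real, Real.norm_eq_abs, abs_of_pos hp0]
      have hmem : (p.1 : ℂ) * ee p.2 ∉ D0 := by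
        rw [hD0, mem_ball_zero_iff, hn]
        intro h
        exact hp ⟨⟨hp0, h⟩, ht'.2⟩
      rw [he, indicator_of_notMem hmem, smul_zero]
    · rw [indicator_of_notMem ht]

/-- the polar measure -/
noncomputable def PM (r₀ : ℝ) : Measure (ℝ × ℝ) :=
  (volume.restrict (Rec r₀)).withDensity fun p => ENNReal.ofReal (4 * p.1 / (1 - p.1 ^ 2) ^ 2)

theorem contOn_Ph (z : ℍ) {r₀ : ℝ} (h1 : r₀ < 1) : ContinuousOn (Ph z) (Rec r₀) := by
  have ce := continuous_ee
  have hm : MapsTo (fun p : ℝ × ℝ => (p.1 : ℂ) * ee p.2) (Rec r₀) DD := by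
    rintro p ⟨hp, -⟩
    exact ee_mem (by rw [abs_of_pos hp.1]; exact hp.2.trans h1) _
  have hc2 : ContinuousOn (fun p : ℝ × ℝ => cay z (p.1 * ee p.2)) (Rec r₀) :=
    (cont_cay z).comp (f := fun p : ℝ × ℝ => (p.1 : ℂ) * ee p.2) (by fun_prop) hm
  intro p hp
  have h3 : (0 : ℝ) < (cay z (p.1 * ee p.2)).im := cay_mem z (hm hp)
  have h4 : ContinuousAt ofComplex (cay z (p.1 * ee p.2)) := by
    have h5 := (contMDiffAt_ofComplex (n := ⊤) h3).continuousAt
    exact h5
  exact ContinuousAt.comp_continuousWithinAt (f := fun p : ℝ × ℝ => cay z (p.1 * ee p.2)) (g := ofComplex) h4 (hc2 p hp)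

theorem aemeas_Ph (z : ℍ) {r₀ : ℝ} (h1 : r₀ < 1) : AEMeasurable (Ph z) (PM r₀) :=
  ((contOn_Ph z h1).aemeasurable (measurableSet_Rec r₀)).mono_ac (withDensity_absolutelyContinuous _ _)

theorem map_PM (z : ℍ) {r₀ : ℝ} (h1 : r₀ < 1) : (PM r₀).map (Ph z) = volume.restrict (BD z r₀) := by
  refine Measure.ext_of_lintegral _ fun F hF => ?_
  rw [lintegral_map' hF.aemeasurable (aemeas_Ph z h1), polar_eq hF z h1, PM,
    lintegral_withDensity_eq_lintegral_mul₀ (by fun_prop)]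
  · rfl
  · exact hF.comp_aemeasurable ((contOn_Ph z h1).aemeasurable (measurableSet_Rec r₀))

theorem BD_sub {U : ℝ} (hU : 1 ≤ U) (z : ℍ) : BD z (rr U) ⊆ Metric.closedBall z (rad U) := by
  rintro u ⟨w, hw, hwu⟩
  have hlt := rr_lt hU
  have hD : w ∈ DD := Metric.ball_subset_ball hlt.le hw
  have h := dist_rad hU z w hD (by
    rw [mem_ball_zero_iff] at hw
    exact hw.le)
  have e : (⟨cay z w, cay_mem z hD⟩ : ℍ) = u := UpperHalfPlane.ext hwu
  rw [e] at h
  exact h

theorem mean_real {g : ℍ → ℝ} (hg : Smooth2 g) {s : ℝ} (hlap : ∀ u, hyp g u = -(s * (1 - s)) * g u) {U : ℝ}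
    (hU : 1 ≤ U) (z : ℍ) : ∫ u in BD z (rr U), g u = hT U s * g z := by
  have hlt := rr_lt hU
  have h0 := rr_nonneg U
  have hpi := Real.pi_pos
  have hgc : Continuous g := cont_f hg
  rw [← map_PM z hlt, integral_map (aemeas_Ph z hlt) hgc.aestronglyMeasurable, PM,
    integral_withDensity_eq_integral_toReal_smul₀ (by fun_prop) (by simp)]
  have e1 : ∫ p in Rec (rr U), (ENNReal.ofReal (4 * p.1 / (1 - p.1 ^ 2) ^ 2)).toReal • g (Ph z p) =
      ∫ p in Rec (rr U), 4 * p.1 / (1 - p.1 ^ 2) ^ 2 * fc g (cay z (p.1 * ee p.2)) := by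
    refine setIntegral_congr_fun (measurableSet_Rec _) fun p hp => ?_
    have hp1 : 0 < p.1 := hp.1.1
    rw [ENNReal.toReal_ofReal (by positivity), smul_eq_mul]
    rfl
  have hm : ∀ r ∈ Icc 0 (rr U), ∀ θ : ℝ, (r : ℂ) * ee θ ∈ DD := by
    intro r hr θ
    exact ee_mem (by rw [abs_of_nonneg hr.1]; exact hr.2.trans_lt hlt) _
  have hint : IntegrableOn (fun p : ℝ × ℝ => 4 * p.1 / (1 - p.1 ^ 2) ^ 2 * fc g (cay z (p.1 * ee p.2)))
      (Rec (rr U)) := by
    have hcont : ContinuousOn (fun p : ℝ × ℝ => 4 * p.1 / (1 - p.1 ^ 2) ^ 2 * fc g (cay z (p.1 * ee p.2)))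
        (Icc 0 (rr U) ×ˢ Icc (-Real.pi) Real.pi) := by
      have ce := continuous_ee
      have hc2 : ContinuousOn (fun p : ℝ × ℝ => cay z (p.1 * ee p.2)) (Icc 0 (rr U) ×ˢ Icc (-Real.pi) Real.pi) :=
        (cont_cay z).comp (f := fun p : ℝ × ℝ => (p.1 : ℂ) * ee p.2) (by fun_prop) fun p hp => hm p.1 hp.1 p.2
      have hc3 : ContinuousOn (fun p : ℝ × ℝ => fc g (cay z (p.1 * ee p.2)))
          (Icc 0 (rr U) ×ˢ Icc (-Real.pi) Real.pi) :=
        (contOn_fc hg).comp hc2 fun p hp => cay_mem z (hm p.1 hp.1 p.2)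
      refine ContinuousOn.mul (ContinuousOn.div (by fun_prop) (by fun_prop) ?_) hc3
      rintro p ⟨hp, -⟩
      have h5 : p.1 < 1 := hp.2.trans_lt hlt
      have h6 : p.1 ^ 2 < 1 := by
        have := hp.1
        nlinarith
      have h7 : 0 < 1 - p.1 ^ 2 := by linarith
      positivity
    exact (hcont.integrableOn_compact (isCompact_Icc.prod isCompact_Icc)).mono_set
      (prod_mono Ioo_subset_Icc_self Ioo_subset_Icc_self)
  rw [e1]
  have e2 : ∫ p in Rec (rr U), 4 * p.1 / (1 - p.1 ^ 2) ^ 2 * fc g (cay z (p.1 * ee p.2)) =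
      ∫ r in Ioo 0 (rr U), ∫ θ in Ioo (-Real.pi) Real.pi, 4 * r / (1 - r ^ 2) ^ 2 * fc g (cay z (r * ee θ)) := by
    rw [Rec, Measure.volume_eq_prod] at *
    exact setIntegral_prod _ hint
  rw [e2, hT, intervalIntegral.integral_of_le h0, integral_Ioc_eq_integral_Ioo, ← integral_mul_const]
  refine setIntegral_congr_fun measurableSet_Ioo fun r hr => ?_
  have hr1 : r < 1 := hr.2.trans hlt
  rw [integral_const_mul, ← integral_Ioc_eq_integral_Ioo, ← intervalIntegral.integral_of_le (by linarith),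
    mean_eq hg hlap z hr.1.le hr1]
  ring

theorem integrable_BD {e : ℍ → ℂ} (he : Continuous e) {U : ℝ} (hU : 1 ≤ U) (z : ℍ) :
    IntegrableOn e (BD z (rr U)) :=
  (he.continuousOn.integrableOn_compact (ProperSpace.isCompact_closedBall z (rad U))).mono_set (BD_sub hU z)

/-- **The linear mean value identity.** -/
theorem mean_linear {e : ℍ → ℂ} {lam : ℝ} (he : Eig e lam) (hlam : lam ≤ 1 / 4) {U : ℝ} (hU : 1 ≤ U) (z : ℍ) :
    ∫ u in BD z (rr U), e u = (hT U (sp lam) : ℂ) * e z := by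
  have hc := he.cont
  have hi := integrable_BD hc hU z
  have h1 := he.re 1
  have h2 := he.re (-Complex.I)
  have m1 := mean_real h1.1 (s := sp lam) (by rw [sp_mul hlam]; exact h1.2) hU z
  have m2 := mean_real h2.1 (s := sp lam) (by rw [sp_mul hlam]; exact h2.2) hU z
  apply Complex.ext
  · have h3 : (∫ u in BD z (rr U), e u).re = ∫ u in BD z (rr U), (e u).re := (integral_re (𝕜 := ℂ) hi).symm
    rw [h3, Complex.re_ofReal_mul]
    simpa using m1
  · have h3 : (∫ u in BD z (rr U), e u).im = ∫ u in BD z (rr U), (e u).im := (integral_im (𝕜 := ℂ) hi).symm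
    rw [h3, Complex.im_ofReal_mul]
    simpa using m2

end Pool.Agent.H496.R6
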