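import Pool.Agent.H496.R6.Box

/-! Minkowski's theorem on linear forms over a totally real field. The proof of `linear_forms` is
that of the library module `Pool.Graph.R_seed8.W401.SSS.P.HERM`. -/

set_option autoImplicit false

namespace Pool.Agent.H496.R6

open MeasureTheory Matrix Function
open scoped ENNReal NumberField

/-- Minkowski's theorem on linear forms. -/
theorem linear_forms {ι : Type*} [Fintype ι] [DecidableEq ι] (A : Matrix ι ι ℝ) (hA : A.det ≠ 0)
    (t : ℝ) (hvol : |A.det| ≤ t ^ Fintype.card ι) (ht : 0 ≤ t) [Nonempty ι] :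
    ∃ c : ι → ℤ, c ≠ 0 ∧ ∀ i, |(A.mulVec (fun j => (c j : ℝ))) i| ≤ t := by
  classical
  let b := Pi.basisFun ℝ ι
  let L : AddSubgroup (ι → ℝ) := (Submodule.span ℤ (Set.range b)).toAddSubgroup
  have hdet : LinearMap.det (Matrix.toLin' A) = A.det := by simp
  have hdet0 : LinearMap.det (Matrix.toLin' A) ≠ 0 := by rw [hdet]; exact hA
  let e := (Matrix.toLin' A).equivOfDetNeZero hdet0
  let s : Set (ι → ℝ) := (Matrix.toLin' A) ⁻¹' (Set.pi Set.univ fun _ : ι => Set.Icc (-t) t)
  have hs_mem : ∀ x, x ∈ s ↔ ∀ i, |(A.mulVec x) i| ≤ t := by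
    intro x
    simp only [s, Set.mem_preimage, Set.mem_pi, Set.mem_univ, forall_true_left, Set.mem_Icc,
      Matrix.toLin'_apply, abs_le]
  have h_symm : ∀ x ∈ s, -x ∈ s := by
    intro x hx
    rw [hs_mem] at hx ⊢
    intro i
    rw [Matrix.mulVec_neg, Pi.neg_apply, abs_neg]
    exact hx i
  have h_conv : Convex ℝ s := by
    apply Convex.linear_preimage
    exact convex_pi (fun _ _ => convex_Icc _ _)
  have h_cpt : IsCompact s := by
    have h1 : IsCompact (Set.pi Set.univ fun _ : ι => Set.Icc (-t) t) :=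
      isCompact_univ_pi (fun _ => isCompact_Icc)
    have h2 := (e.toContinuousLinearEquiv.toHomeomorph.isCompact_preimage).2 h1
    exact h2
  have hvs : volume s = ENNReal.ofReal |(A.det)⁻¹| * ENNReal.ofReal ((2 * t) ^ Fintype.card ι) := by
    have h1 := Measure.addHaar_preimage_linearMap (μ := (volume : Measure (ι → ℝ)))
      (f := Matrix.toLin' A) hdet0 (Set.pi Set.univ fun _ : ι => Set.Icc (-t) t)
    have h2 : volume (Set.pi Set.univ fun _ : ι => Set.Icc (-t) t)
        = ENNReal.ofReal ((2 * t) ^ Fintype.card ι) := by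
      rw [volume_pi_pi]
      simp only [Real.volume_Icc, sub_neg_eq_add, Finset.prod_const, Finset.card_univ]
      rw [ENNReal.ofReal_pow (by positivity), two_mul]
    rw [h2, hdet] at h1
    exact h1
  have hF : volume (ZSpan.fundamentalDomain b) = 1 := by
    rw [ZSpan.fundamentalDomain_pi_basisFun, Real.volume_pi_Ico]
    simp
  have hmain : volume (ZSpan.fundamentalDomain b) * 2 ^ Module.finrank ℝ (ι → ℝ) ≤ volume s := by
    rw [hF, one_mul, hvs, Module.finrank_fintype_fun_eq_card, ← ENNReal.ofReal_mul (abs_nonneg _)]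
    have h3 : (2 : ℝ≥0∞) ^ Fintype.card ι = ENNReal.ofReal (2 ^ Fintype.card ι) := by
      rw [ENNReal.ofReal_pow (by norm_num)]
      norm_num
    rw [h3]
    apply ENNReal.ofReal_le_ofReal
    rw [abs_inv, mul_pow]
    have h4 : 0 < |A.det| := abs_pos.2 hA
    rw [← mul_assoc, mul_comm _ ((2 : ℝ) ^ Fintype.card ι), mul_assoc]
    have h5 : 1 ≤ |A.det|⁻¹ * t ^ Fintype.card ι := by
      rw [inv_mul_eq_div, one_le_div h4]
      exact hvol
    have h6 : (0 : ℝ) < 2 ^ Fintype.card ι := by positivity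
    nlinarith
  have : Countable L := inferInstanceAs (Countable (Submodule.span ℤ (Set.range b)))
  have : DiscreteTopology L := inferInstanceAs (DiscreteTopology (Submodule.span ℤ (Set.range b)))
  obtain ⟨x, hx0, hxs⟩ := exists_ne_zero_mem_lattice_of_measure_mul_two_pow_le_measure
    (L := L) (ZSpan.isAddFundamentalDomain' b volume) h_symm h_conv h_cpt hmain
  have hx : ∀ i, ∃ c : ℤ, (c : ℝ) = (x : ι → ℝ) i := by
    intro i
    have := (b.mem_span_iff_repr_mem ℤ (x : ι → ℝ)).mp x.2 i
    simpa [b] using this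
  choose c hc using hx
  refine ⟨c, ?_, ?_⟩
  · intro h0
    apply hx0
    apply Subtype.ext
    funext i
    rw [← hc i, h0]
    simp
  · have h7 : (fun j => (c j : ℝ)) = (x : ι → ℝ) := funext hc
    rw [h7]
    exact (hs_mem _).1 hxs

variable {K : Type*} [Field K] [NumberField K]

theorem coe_zsum {ι : Type*} [Fintype ι] (u : ι → ℤ) (e : ι → 𝓞 K) :
    ((∑ m, u m • e m : 𝓞 K) : K) = ∑ m, (u m : K) * (e m : K) := by
  show algebraMap (𝓞 K) K (∑ m, u m • e m) = _
  rw [map_sum]
  refine Finset.sum_congr rfl fun m _ => ?_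
  rw [zsmul_eq_mul, map_mul, map_intCast]

/-- the matrix of the embeddings of an integral basis is invertible -/
theorem det_emb {ι : Type*} [Fintype ι] [DecidableEq ι] (σ : ι → K →+* ℝ) (hσ : Injective σ)
    (bas : Module.Basis ι ℤ (𝓞 K)) : (Matrix.of fun i m : ι => σ i (bas m : K)).det ≠ 0 := by
  intro h0
  obtain ⟨v, hv0, hv⟩ := Matrix.exists_vecMul_eq_zero_iff.2 h0
  set τ : ι → (𝓞 K →* ℝ) := fun i => ((σ i).comp (algebraMap (𝓞 K) K) : 𝓞 K →+* ℝ).toMonoidHom with hτ
  have hτinj : Injective τ := by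
    intro i j hij
    apply hσ
    apply IsLocalization.ringHom_ext (nonZeroDivisors (𝓞 K))
    apply RingHom.ext
    intro x
    exact DFunLike.congr_fun hij x
  have hli := (linearIndependent_monoidHom (𝓞 K) ℝ).comp τ hτinj
  rw [Fintype.linearIndependent_iff] at hli
  apply hv0
  funext i
  refine hli v ?_ i
  funext x
  -- extend by linearity
  have hlin : ∀ x : 𝓞 K, ∑ i, v i * σ i (x : K) = 0 := by
    intro x
    have hx := bas.sum_repr x
    have e1 : ∀ i, σ i (x : K) = ∑ m, (bas.repr x m : ℝ) * σ i (bas m : K) := by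
      intro i
      conv_lhs => rw [← hx]
      have e2 : ((∑ m, bas.repr x m • bas m : 𝓞 K) : K) = ∑ m, (bas.repr x m : K) * (bas m : K) := by
        exact coe_zsum _ _
      rw [e2, map_sum]
      refine Finset.sum_congr rfl fun m _ => ?_
      rw [map_mul, map_intCast]
    calc ∑ i, v i * σ i (x : K) = ∑ i, ∑ m, (bas.repr x m : ℝ) * (v i * σ i (bas m : K)) := by
          refine Finset.sum_congr rfl fun i _ => ?_
          rw [e1, Finset.mul_sum]
          refine Finset.sum_congr rfl fun m _ => by ring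
      _ = ∑ m, (bas.repr x m : ℝ) * ∑ i, v i * σ i (bas m : K) := by
          rw [Finset.sum_comm]
          refine Finset.sum_congr rfl fun m _ => ?_
          rw [Finset.mul_sum]
      _ = 0 := by
          refine Finset.sum_eq_zero fun m _ => ?_
          have := congrFun hv m
          rw [Matrix.vecMul, dotProduct] at this
          simp only [Matrix.of_apply, Pi.zero_apply] at this
          rw [this, mul_zero]
  rw [Finset.sum_apply]
  exact hlin x

/-- Minkowski's theorem for linear forms in four variables at each real place. -/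
theorem mink_field {ι : Type} [Fintype ι] [DecidableEq ι] [Nonempty ι] (σ : ι → K →+* ℝ) (hσ : Injective σ)
    (hcard : Fintype.card ι = Module.finrank ℚ K) (D : ℝ) (hD0 : 0 ≤ D) :
    ∃ c : ℝ, 1 ≤ c ∧ ∀ T : ι → Matrix (Fin 4) (Fin 4) ℝ, (∀ i, (T i).det ≠ 0) → |∏ i, (T i).det| ≤ D →
      ∃ x : Fin 4 → 𝓞 K, x ≠ 0 ∧ ∀ i k, |∑ l, T i k l * σ i (x l : K)| ≤ c := by
  classical
  -- the integral basis
  have hc1 : Fintype.card (Module.Free.ChooseBasisIndex ℤ (𝓞 K)) = Fintype.card ι := by
    rw [hcard, ← NumberField.RingOfIntegers.rank K, Module.finrank_eq_card_chooseBasisIndex]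
  set bas : Module.Basis ι ℤ (𝓞 K) := (NumberField.RingOfIntegers.basis K).reindex (Fintype.equivOfCardEq hc1)
  set E : Matrix ι ι ℝ := Matrix.of fun i m : ι => σ i (bas m : K) with hE
  have hEdet : E.det ≠ 0 := det_emb σ hσ bas
  set c : ℝ := 1 + D * |E.det| ^ 4 with hc
  have hc1 : 1 ≤ c := by
    have : 0 ≤ D * |E.det| ^ 4 := by positivity
    linarith
  refine ⟨c, hc1, fun T hT hTD => ?_⟩
  set A : Matrix (Fin 4 × ι) (Fin 4 × ι) ℝ := Matrix.blockDiagonal T * (Matrix.kroneckerMap (· * ·) (1 : Matrix (Fin 4) (Fin 4) ℝ) E)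
    with hA
  have hdet : A.det = (∏ i, (T i).det) * E.det ^ 4 := by
    rw [hA, Matrix.det_mul, Matrix.det_blockDiagonal, Matrix.det_kronecker]
    simp
  have hdet0 : A.det ≠ 0 := by
    rw [hdet]
    exact mul_ne_zero (Finset.prod_ne_zero_iff.2 fun i _ => hT i) (pow_ne_zero _ hEdet)
  have hle : |A.det| ≤ c ^ Fintype.card (Fin 4 × ι) := by
    have h1 : |A.det| ≤ c := by
      rw [hdet, abs_mul, abs_pow, hc]
      have : |∏ i, (T i).det| * |E.det| ^ 4 ≤ D * |E.det| ^ 4 := by gcongr
      linarith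
    exact h1.trans (le_self_pow₀ hc1 (Fintype.card_ne_zero))
  obtain ⟨u, hu0, hu⟩ := linear_forms A hdet0 c hle (by linarith)
  refine ⟨fun l => ∑ m, u (l, m) • bas m, ?_, ?_⟩
  · intro h0
    apply hu0
    funext p
    obtain ⟨l, m⟩ := p
    have h1 := congrFun h0 l
    simp only [Pi.zero_apply] at h1
    have h2 := (Fintype.linearIndependent_iff.1 bas.linearIndependent) (fun m => u (l, m)) h1 m
    exact h2
  · intro i k
    have h1 := hu (k, i)
    have h2 : (A.mulVec (fun j => (u j : ℝ))) (k, i) = ∑ l, T i k l * σ i ((∑ m, u (l, m) • bas m : 𝓞 K) : K) := by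
      rw [hA, ← Matrix.mulVec_mulVec]
      have e1 : ((Matrix.kroneckerMap (· * ·) (1 : Matrix (Fin 4) (Fin 4) ℝ) E).mulVec (fun j => (u j : ℝ))) =
          fun p : Fin 4 × ι => σ p.2 ((∑ m, u (p.1, m) • bas m : 𝓞 K) : K) := by
        funext p
        obtain ⟨l, i⟩ := p
        rw [Matrix.mulVec, dotProduct, Fintype.sum_prod_type]
        simp only [Matrix.kroneckerMap_apply, Matrix.one_apply, ite_mul, one_mul, zero_mul]
        rw [Finset.sum_comm]
        simp only [Finset.sum_ite_eq, Finset.mem_univ, if_true]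
        have e2 : ((∑ m, u (l, m) • bas m : 𝓞 K) : K) = ∑ m, (u (l, m) : K) * (bas m : K) := by
          exact coe_zsum _ _
        rw [e2, map_sum]
        refine Finset.sum_congr rfl fun m _ => ?_
        rw [map_mul, map_intCast, hE, Matrix.of_apply, mul_comm]
      rw [e1, Matrix.mulVec, dotProduct, Fintype.sum_prod_type]
      refine Finset.sum_congr rfl fun l _ => ?_
      rw [Finset.sum_eq_single i]
      · rw [Matrix.blockDiagonal_apply_eq]
      · intro j _ hj
        rw [Matrix.blockDiagonal_apply_ne _ _ _ hj.symm, zero_mul]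
      · intro h
        exact absurd (Finset.mem_univ i) h
    rw [← h2]
    exact h1

end Pool.Agent.H496.R6
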