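import Pool.Agent.H496.R6.Dual2
import Pool.Agent.H496.R6.Mean

/-! The weighted kernel sum. -/

set_option autoImplicit false

namespace Pool.Agent.H496.R6

open MeasureTheory Set Function
open UpperHalfPlane hiding I
open scoped ENNReal NNReal MatrixGroups
open Pool.Agent.H496 Pool.Agent.H496.R4
open Pool.Agent.T2H31 (rad EB)

section omega
variable {X G : Type*} [MeasurableSpace X] (μ : Measure X) [Group G] [Countable G] (T : G → X → X)

theorem exists_omega (hTm : ∀ g h x, T (g * h) x = T g (T h x)) (hT1 : ∀ x, T 1 x = x)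
    (hm : ∀ g, Measurable (T g)) {F : Set X} (hF : MeasurableSet F)
    (hcov : ∀ᵐ x ∂μ, {g : G | T g x ∈ F}.Finite ∧ ∃ g, T g x ∈ F) :
    ∃ ω : X → ℝ≥0∞, Measurable ω ∧ (∀ᵐ x ∂μ, ∑' g, ω (T g x) = 1) ∧ ∀ x, ω x ≤ F.indicator 1 x := by
  set N : X → ℝ≥0∞ := fun x => ∑' g : G, F.indicator 1 (T g x) with hN
  have hNm : Measurable N := Measurable.tsum fun g => (measurable_one.indicator hF).comp (hm g)
  have hNinv : ∀ g x, N (T g x) = N x := by
    intro g x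
    rw [hN]
    simp only
    rw [← (Equiv.mulRight g).tsum_eq (fun h : G => F.indicator (1 : X → ℝ≥0∞) (T h x))]
    refine tsum_congr fun h => ?_
    rw [Equiv.coe_mulRight, hTm]
  refine ⟨F.indicator fun x => (N x)⁻¹, hNm.inv.indicator hF, ?_, ?_⟩
  · filter_upwards [hcov] with x hx
    have h1 : ∀ g, F.indicator (fun x => (N x)⁻¹) (T g x) = F.indicator 1 (T g x) * (N x)⁻¹ := by
      intro g
      by_cases h : T g x ∈ F
      · rw [indicator_of_mem h, indicator_of_mem h, hNinv, Pi.one_apply, one_mul]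
      · rw [indicator_of_notMem h, indicator_of_notMem h, zero_mul]
    simp_rw [h1]
    rw [ENNReal.tsum_mul_right]
    apply ENNReal.mul_inv_cancel
    · obtain ⟨g, hg⟩ := hx.2
      intro h0
      have h2 : F.indicator (1 : X → ℝ≥0∞) (T g x) = 0 := ENNReal.tsum_eq_zero.1 h0 g
      rw [indicator_of_mem hg] at h2
      exact one_ne_zero h2
    · have h2 : ∑' g : G, F.indicator (1 : X → ℝ≥0∞) (T g x) = ∑ g ∈ hx.1.toFinset, F.indicator 1 (T g x) := by
        refine tsum_eq_sum fun g hg => ?_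
        rw [Set.Finite.mem_toFinset] at hg
        have hg' : T g x ∉ F := hg
        exact indicator_of_notMem hg' (1 : X → ℝ≥0∞)
      rw [h2]
      refine (ENNReal.sum_lt_top.2 fun g _ => ?_).ne
      refine lt_of_le_of_lt ?_ ENNReal.one_lt_top
      exact indicator_le_self' (f := (1 : X → ℝ≥0∞)) (fun _ _ => zero_le_one) (T g x)
  · intro x
    by_cases h : x ∈ F
    · rw [indicator_of_mem h, indicator_of_mem h, Pi.one_apply, ENNReal.inv_le_one]
      have h1 := ENNReal.le_tsum (f := fun g : G => F.indicator (1 : X → ℝ≥0∞) (T g x)) 1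
      rw [hT1, indicator_of_mem h] at h1
      exact h1
    · rw [indicator_of_notMem h, indicator_of_notMem h]

end omega

section kern
variable {W V G : Type*} [Fintype W] [DecidableEq W] [Fintype V] [DecidableEq V] [Group G]
  (r : W → G →* SL(2, ℝ)) (σ : V → G →* Quaternion ℝ) (hσ : ∀ v γ, ‖σ v γ‖ = 1)
  (w₀ : W) (z : W → ℍ)

/-- the displacement -/
noncomputable def cd (w : W) (γ : G) : ℝ := Real.cosh (dist (z w) (r w γ • z w) / 2)

omit [Fintype W] [DecidableEq W] in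
theorem one_le_cd (w : W) (γ : G) : 1 ≤ cd r z w γ := Real.one_le_cosh _

/-- the number of dyadic scales of the displacement -/
noncomputable def nsc (U : ℝ) : ℕ := Nat.log 2 ⌊2 * U⌋₊ + 1

omit [Fintype W] [DecidableEq W] in
theorem exists_t {U : ℝ} {γ : G} {w : W} (h : cd r z w γ ≤ 2 * U) :
    ∃ t ∈ Finset.range (nsc U), cd r z w γ ≤ 2 ^ (t + 1) ∧ (2 : ℝ) ^ t ≤ cd r z w γ := by
  have h1 := one_le_cd r z w γ
  set c := cd r z w γ with hc
  have hf : ⌊c⌋₊ ≠ 0 := by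
    rw [Nat.ne_zero_iff_zero_lt, Nat.floor_pos]
    exact h1
  refine ⟨Nat.log 2 ⌊c⌋₊, ?_, ?_, ?_⟩
  · rw [Finset.mem_range, nsc, Nat.lt_succ_iff]
    exact Nat.log_mono_right (Nat.floor_le_floor h)
  · have h2 := Nat.lt_pow_succ_log_self (b := 2) (by norm_num) ⌊c⌋₊
    have h3 : ⌊c⌋₊ + 1 ≤ 2 ^ (Nat.log 2 ⌊c⌋₊ + 1) := h2
    have h4 := (Nat.lt_floor_add_one c).le
    have h5 : ((⌊c⌋₊ + 1 : ℕ) : ℝ) ≤ ((2 ^ (Nat.log 2 ⌊c⌋₊ + 1) : ℕ) : ℝ) := by exact_mod_cast h3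
    push_cast at h5
    linarith
  · have h2 := Nat.pow_log_le_self 2 hf
    have h3 := Nat.floor_le (show 0 ≤ c by linarith)
    have h4 : ((2 ^ Nat.log 2 ⌊c⌋₊ : ℕ) : ℝ) ≤ (⌊c⌋₊ : ℝ) := by exact_mod_cast h2
    push_cast at h4
    linarith

theorem nsc_pow {U : ℝ} (hU : 1 ≤ U) {t : ℕ} (ht : t ∈ Finset.range (nsc U)) : (2 : ℝ) ^ t ≤ 2 * U := by
  rw [Finset.mem_range, nsc, Nat.lt_succ_iff] at ht
  have hf : ⌊2 * U⌋₊ ≠ 0 := by
    rw [Nat.ne_zero_iff_zero_lt, Nat.floor_pos]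
    linarith
  have h2 := Nat.pow_le_of_le_log hf ht
  have h3 := Nat.floor_le (show 0 ≤ 2 * U by linarith)
  have h4 : ((2 ^ t : ℕ) : ℝ) ≤ (⌊2 * U⌋₊ : ℝ) := by exact_mod_cast h2
  push_cast at h4
  linarith

/-- the counting hypothesis -/
def CountHyp (U Z q : ℝ) : Prop :=
  ∀ T : ℝ, 1 ≤ T → T ≤ 4 * U → ∀ s : V → ℝ, (∀ v, 0 < s v) → (∀ v, s v ≤ 1) → ∀ A : Finset G,
    (∀ γ ∈ A, cd r z w₀ γ ≤ T ∧ (∀ w ≠ w₀, cd r z w γ ≤ 2) ∧ ∀ v, sn (σ v γ) ≤ s v) →
    (A.card : ℝ) ≤ Z * ((1 + T * (∏ v, s v ^ 2) * q ^ 2) * (1 + T * (∏ v, s v) * q))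

/-- the bound of the kernel sum -/
noncomputable def KB (V : Type*) [Fintype V] (U Z q : ℝ) (n : V → ℕ) : ℝ :=
  (nsc U * ∏ v, ((scl (n v) : ℝ) + 1)) * (32 * 2 ^ Fintype.card V * U * (∏ v, ((n v : ℝ) + 1)) * Z *
    (2 ^ Fintype.card V * (∏ v, ((n v : ℝ) + 1)) + 2 + 4 * U * q ^ 3))

omit [Fintype W] [DecidableEq W] in
theorem kernel_sum {U Z q : ℝ} (hU : 1 ≤ U) (hZ : 0 ≤ Z) (hq : 0 < q) (hq1 : q ≤ 1)
    (hcount : CountHyp r σ w₀ z U Z q) (n : V → ℕ) (A : Finset G)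
    (hA : ∀ γ ∈ A, cd r z w₀ γ ≤ 2 * U ∧ ∀ w ≠ w₀, cd r z w γ ≤ 2) :
    ∑ γ ∈ A, |TH n (sS σ hσ γ)| * (16 * U / cd r z w₀ γ) ≤ KB V U Z q n := by
  classical
  set I := Fintype.piFinset fun v : V => Finset.range (scl (n v) + 1) with hI
  set a : ℕ × (V → ℕ) → ℝ := fun i => (∏ v, (((n v : ℝ) + 1) * 2 ^ (i.2 v + 1))) * (16 * U / 2 ^ i.1) with ha
  set P : G → ℕ × (V → ℕ) → Prop := fun γ i => cd r z w₀ γ ≤ 2 ^ (i.1 + 1) ∧ ∀ v, sn (σ v γ) ≤ (1 / 2 : ℝ) ^ (i.2 v) with hP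
  have hU0 : 0 < U := by linarith
  have ha0 : ∀ i, 0 ≤ a i := fun i => mul_nonneg (Finset.prod_nonneg fun v _ => by positivity) (by positivity)
  set IJ := Finset.range (nsc U) ×ˢ I with hIJ
  have h1 : ∀ γ ∈ A, |TH n (sS σ hσ γ)| * (16 * U / cd r z w₀ γ) ≤ ∑ i ∈ IJ, if P γ i then a i else 0 := by
    intro γ hγ
    obtain ⟨i, hi, h2, h3⟩ := exists_scale σ hσ n γ
    obtain ⟨t, ht, h5, h6⟩ := exists_t r z (hA γ hγ).1
    have h7 : |TH n (sS σ hσ γ)| * (16 * U / cd r z w₀ γ) ≤ a (t, i) := by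
      have h8 : 16 * U / cd r z w₀ γ ≤ 16 * U / 2 ^ t := by gcongr
      have h9 : 0 ≤ 16 * U / cd r z w₀ γ := by
        have := one_le_cd r z w₀ γ
        positivity
      exact mul_le_mul h3 h8 h9 (Finset.prod_nonneg fun v _ => by positivity)
    refine h7.trans ?_
    have h4 : (if P γ (t, i) then a (t, i) else 0) ≤ ∑ i ∈ IJ, if P γ i then a i else 0 :=
      Finset.single_le_sum (f := fun i => if P γ i then a i else 0) (fun j _ => by
        have := ha0 j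
        split_ifs <;> simp [this]) (Finset.mem_product.2 ⟨ht, hi⟩)
    rwa [if_pos (show P γ (t, i) from ⟨h5, h2⟩)] at h4
  have hterm : ∀ i ∈ IJ, a i * ((A.filter fun γ => P γ i).card : ℝ) ≤
      32 * 2 ^ Fintype.card V * U * (∏ v, ((n v : ℝ) + 1)) * Z *
        (2 ^ Fintype.card V * (∏ v, ((n v : ℝ) + 1)) + 2 + 4 * U * q ^ 3) := by
    rintro ⟨t, i⟩ hti
    obtain ⟨ht, hi⟩ := Finset.mem_product.1 hti
    have ht' := nsc_pow hU ht
    set T : ℝ := 2 ^ (t + 1) with hT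
    have hT1 : 1 ≤ T := one_le_pow₀ (by norm_num)
    have hT4 : T ≤ 4 * U := by
      rw [hT, pow_succ]
      simp only at ht'
      linarith
    set Φ : ℝ := ∏ v, (1 / 2 : ℝ) ^ (i v) with hΦ
    have hΦ0 : 0 < Φ := Finset.prod_pos fun v _ => by positivity
    have hΦ1 : Φ ≤ 1 := Finset.prod_le_one (fun v _ => by positivity) fun v _ =>
      pow_le_one₀ (by norm_num) (by norm_num)
    have hΦ2 : ∏ v, ((1 / 2 : ℝ) ^ (i v)) ^ 2 = Φ ^ 2 := by rw [hΦ, Finset.prod_pow]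
    set PN : ℝ := ∏ v, ((n v : ℝ) + 1) with hPN
    have hPN0 : 0 < PN := Finset.prod_pos fun v _ => by positivity
    have hcnt := hcount T hT1 hT4 (fun v => (1 / 2 : ℝ) ^ (i v)) (fun v => by positivity)
      (fun v => pow_le_one₀ (by norm_num) (by norm_num)) (A.filter fun γ => P γ (t, i)) (fun γ hγ => by
        obtain ⟨g1, g2⟩ := Finset.mem_filter.1 hγ
        exact ⟨g2.1, (hA γ g1).2, g2.2⟩)
    rw [hΦ2, ← hΦ] at hcnt
    have e1 : a (t, i) = 32 * 2 ^ Fintype.card V * U * PN / (Φ * T) := by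
      rw [ha]
      simp only
      have e2 : ∏ v, (((n v : ℝ) + 1) * 2 ^ (i v + 1)) = PN * (2 ^ Fintype.card V / Φ) := by
        rw [hΦ, hPN, ← Finset.card_univ, ← Finset.prod_const, ← Finset.prod_div_distrib, ← Finset.prod_mul_distrib]
        refine Finset.prod_congr rfl fun v _ => ?_
        rw [one_div, inv_pow, div_inv_eq_mul, pow_succ]
        ring
      rw [e2, hT, pow_succ]
      field_simp
      ring
    have hΦinv : 1 / Φ ≤ 2 ^ Fintype.card V * PN := by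
      rw [hΦ, hPN, ← Finset.card_univ, ← Finset.prod_const, ← Finset.prod_mul_distrib, one_div, ← Finset.prod_inv_distrib]
      refine Finset.prod_le_prod (fun v _ => by positivity) fun v _ => ?_
      rw [one_div, inv_pow, inv_inv]
      have h2 := scl_le (n v)
      have h3 : i v ≤ scl (n v) := Nat.lt_succ_iff.1 (Finset.mem_range.1 (Fintype.mem_piFinset.1 hi v))
      exact (pow_le_pow_right₀ (by norm_num) h3).trans h2
    have hstep : (1 + T * Φ ^ 2 * q ^ 2) * (1 + T * Φ * q) / (Φ * T) ≤ 2 ^ Fintype.card V * PN + 2 + 4 * U * q ^ 3 := by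
      have e3 : (1 + T * Φ ^ 2 * q ^ 2) * (1 + T * Φ * q) / (Φ * T) =
          (1 / Φ) * (1 / T) + Φ * q ^ 2 + q + T * Φ ^ 2 * q ^ 3 := by
        field_simp
        ring
      rw [e3]
      have h2 : (1 / Φ) * (1 / T) ≤ 2 ^ Fintype.card V * PN := by
        calc (1 / Φ) * (1 / T) ≤ (1 / Φ) * 1 := by
              gcongr
              rw [div_le_one (by linarith)]
              exact hT1
          _ ≤ _ := by rw [mul_one]; exact hΦinv
      have h3 : Φ * q ^ 2 ≤ 1 := by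
        have : q ^ 2 ≤ 1 := pow_le_one₀ hq.le hq1
        nlinarith [sq_nonneg q]
      have h4 : T * Φ ^ 2 * q ^ 3 ≤ 4 * U * q ^ 3 := by
        have h5 : T * Φ ^ 2 ≤ 4 * U := by
          have : Φ ^ 2 ≤ 1 := pow_le_one₀ hΦ0.le hΦ1
          nlinarith
        exact mul_le_mul_of_nonneg_right h5 (by positivity)
      linarith
    calc a (t, i) * ((A.filter fun γ => P γ (t, i)).card : ℝ) ≤
        a (t, i) * (Z * ((1 + T * Φ ^ 2 * q ^ 2) * (1 + T * Φ * q))) := mul_le_mul_of_nonneg_left hcnt (ha0 _)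
      _ = 32 * 2 ^ Fintype.card V * U * PN * Z * ((1 + T * Φ ^ 2 * q ^ 2) * (1 + T * Φ * q) / (Φ * T)) := by
          rw [e1]
          ring
      _ ≤ _ := mul_le_mul_of_nonneg_left hstep (by positivity)
  calc ∑ γ ∈ A, |TH n (sS σ hσ γ)| * (16 * U / cd r z w₀ γ) ≤ ∑ γ ∈ A, ∑ i ∈ IJ, if P γ i then a i else 0 :=
        Finset.sum_le_sum fun γ hγ => h1 γ hγ
    _ = ∑ i ∈ IJ, a i * ((A.filter fun γ => P γ i).card : ℝ) := by
        rw [Finset.sum_comm]
        refine Finset.sum_congr rfl fun i _ => ?_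
        rw [← Finset.sum_filter, Finset.sum_const, nsmul_eq_mul, mul_comm]
    _ ≤ ∑ _i ∈ IJ, 32 * 2 ^ Fintype.card V * U * (∏ v, ((n v : ℝ) + 1)) * Z *
        (2 ^ Fintype.card V * (∏ v, ((n v : ℝ) + 1)) + 2 + 4 * U * q ^ 3) := Finset.sum_le_sum hterm
    _ = KB V U Z q n := by
        rw [Finset.sum_const, nsmul_eq_mul, hIJ, Finset.card_product, Finset.card_range, hI, Fintype.card_piFinset]
        simp only [Finset.card_range]
        rw [KB]
        push_cast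
        rfl

end kern

end Pool.Agent.H496.R6
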